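import Pool.Agent.Run7.h199.ZO.Fix

/-!
# Burnside's argument
-/

set_option autoImplicit false

open Finset Polynomial Matrix

namespace Run7.h199.ZO

variable {b : ℕ} {Γ : Type*} [Group Γ]

/-- The representation is irreducible on the subset `H`. -/
def Irr (ρ : Γ →* Matrix (Fin b) (Fin b) ℂ) (H : Set Γ) : Prop :=
  ∀ W : Submodule ℂ (Fin b → ℂ), (∀ g ∈ H, ∀ v ∈ W, ρ g *ᵥ v ∈ W) → W = ⊥ ∨ W = ⊤

lemma nilp (x : Matrix (Fin b) (Fin b) ℂ) (h : ∀ k : ℕ, (x ^ (k + 1)).trace = 0) :
    IsNilpotent x := by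
  classical
  have key : ∀ z ∈ x.charpoly.roots, z = 0 := by
    by_contra hne
    push Not at hne
    obtain ⟨w, hw, hw0⟩ := hne
    set S : Finset ℂ := x.charpoly.roots.toFinset.erase w with hS
    set f : ℂ[X] := X * ∏ z ∈ S, (X - C z) with hf
    have h1 : (aeval x f).trace = 0 := by
      have h2 : ∀ q : ℂ[X], (aeval x (X * q)).trace = 0 := by
        intro q
        induction q using Polynomial.induction_on' with
        | add p q hp hq => rw [mul_add, map_add, Matrix.trace_add, hp, hq, add_zero]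
        | monomial k a =>
          rw [X_mul_monomial, aeval_monomial, ← Algebra.smul_def, Matrix.trace_smul, h, smul_zero]
      exact h2 _
    rw [trace_aeval'] at h1
    have h2 : (x.charpoly.roots.map fun z => f.eval z) =
        (x.charpoly.roots.map fun z => if z = w then f.eval w else 0) := by
      refine Multiset.map_congr rfl fun z hz => ?_
      split_ifs with h3
      · rw [h3]
      · rw [hf, eval_mul, eval_prod, prod_eq_zero (i := z), mul_zero]
        · exact mem_erase.2 ⟨h3, Multiset.mem_toFinset.2 hz⟩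
        · simp
    have h3 : ∀ m : Multiset ℂ, (m.map fun z => if z = w then f.eval w else 0).sum =
        (m.count w : ℂ) * f.eval w := by
      intro m
      induction m using Multiset.induction_on with
      | empty => simp
      | cons a m ih =>
        rw [Multiset.map_cons, Multiset.sum_cons, ih, Multiset.count_cons]
        by_cases h : a = w
        · subst h
          rw [if_pos rfl, if_pos rfl]
          push_cast
          ring
        · rw [if_neg h, if_neg (fun h' => h h'.symm)]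
          push_cast
          ring
    rw [h2, h3] at h1
    rcases mul_eq_zero.1 h1 with h4 | h4
    · rw [Nat.cast_eq_zero, Multiset.count_eq_zero] at h4
      exact h4 hw
    · rw [hf, eval_mul, eval_X, eval_prod] at h4
      rcases mul_eq_zero.1 h4 with h5 | h5
      · exact hw0 h5
      · rw [prod_eq_zero_iff] at h5
        obtain ⟨z, hz, h6⟩ := h5
        rw [eval_sub, eval_X, eval_C, sub_eq_zero] at h6
        exact ne_of_mem_erase hz h6.symm
  have h1 : x.charpoly = X ^ b := by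
    have h2 := (IsAlgClosed.splits x.charpoly).eq_prod_roots_of_monic (Matrix.charpoly_monic x)
    have h3 : x.charpoly.roots = Multiset.replicate b 0 := by
      rw [Multiset.eq_replicate]
      exact ⟨by rw [IsAlgClosed.card_roots_eq_natDegree, Matrix.charpoly_natDegree_eq_dim,
        Fintype.card_fin], key⟩
    rw [h2, h3]
    simp
  have h2 := Matrix.aeval_self_charpoly x
  rw [h1, map_pow, aeval_X] at h2
  exact ⟨b, h2⟩

variable (Q : Set (Matrix (Fin b) (Fin b) ℂ))

lemma span_mul (hm : ∀ x ∈ Q, ∀ y ∈ Q, x * y ∈ Q) {x y : Matrix (Fin b) (Fin b) ℂ}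
    (hx : x ∈ Submodule.span ℂ Q) (hy : y ∈ Submodule.span ℂ Q) : x * y ∈ Submodule.span ℂ Q := by
  have h1 := Submodule.mul_mem_mul hx hy
  rw [Submodule.span_mul_span] at h1
  refine Submodule.span_mono ?_ h1
  rintro _ ⟨a, ha, c, hc, rfl⟩
  exact hm a ha c hc

/-- The trace form is nondegenerate on the span. -/
theorem nondeg (hb : 0 < b) (ρ : Γ →* Matrix (Fin b) (Fin b) ℂ) (hρ : Irr ρ Set.univ)
    (h1 : (1 : Matrix (Fin b) (Fin b) ℂ) ∈ Q) (hm : ∀ x ∈ Q, ∀ y ∈ Q, x * y ∈ Q)
    (hc : ∀ γ, ∀ x ∈ Q, ρ γ * x * ρ γ⁻¹ ∈ Q) (x : Matrix (Fin b) (Fin b) ℂ)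
    (hx : x ∈ Submodule.span ℂ Q) (hx0 : ∀ y ∈ Q, (x * y).trace = 0) : x = 0 := by
  have hinv : ∀ γ, ρ γ * ρ γ⁻¹ = 1 := fun γ => by rw [← map_mul, mul_inv_cancel, map_one]
  have hinv' : ∀ γ, ρ γ⁻¹ * ρ γ = 1 := fun γ => by rw [← map_mul, inv_mul_cancel, map_one]
  set A := Submodule.span ℂ Q with hA
  have hA1 : (1 : Matrix (Fin b) (Fin b) ℂ) ∈ A := Submodule.subset_span h1
  have hAm : ∀ x ∈ A, ∀ y ∈ A, x * y ∈ A := fun x hx y hy => span_mul Q hm hx hy
  have hAc : ∀ γ, ∀ x ∈ A, ρ γ * x * ρ γ⁻¹ ∈ A := by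
    intro γ x hx
    induction hx using Submodule.span_induction with
    | mem x hx => exact Submodule.subset_span (hc γ x hx)
    | zero => rw [mul_zero, zero_mul]; exact A.zero_mem
    | add x y _ _ h2 h3 => rw [mul_add, add_mul]; exact A.add_mem h2 h3
    | smul a x _ h2 => rw [Matrix.mul_smul, Matrix.smul_mul]; exact A.smul_mem a h2
  -- the radical
  let R0 : Submodule ℂ (Matrix (Fin b) (Fin b) ℂ) :=
    { carrier := {x | x ∈ A ∧ ∀ y ∈ A, (x * y).trace = 0}
      add_mem' := fun {x y} hx hy => ⟨A.add_mem hx.1 hy.1, fun z hz => by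
        rw [add_mul, Matrix.trace_add, hx.2 z hz, hy.2 z hz, add_zero]⟩
      zero_mem' := ⟨A.zero_mem, fun z _ => by rw [zero_mul, Matrix.trace_zero]⟩
      smul_mem' := fun c x hx => ⟨A.smul_mem c hx.1, fun z hz => by
        rw [Matrix.smul_mul, Matrix.trace_smul, hx.2 z hz, smul_zero]⟩ }
  have hR0 : ∀ x, x ∈ R0 ↔ x ∈ A ∧ ∀ y ∈ A, (x * y).trace = 0 := fun x => Iff.rfl
  have hxR : x ∈ R0 := by
    refine ⟨hx, fun y hy => ?_⟩
    induction hy using Submodule.span_induction with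
    | mem y hy => exact hx0 y hy
    | zero => rw [mul_zero, Matrix.trace_zero]
    | add y z _ _ h2 h3 => rw [mul_add, Matrix.trace_add, h2, h3, add_zero]
    | smul a y _ h2 => rw [Matrix.mul_smul, Matrix.trace_smul, h2, smul_zero]
  have hRl : ∀ y ∈ A, ∀ x ∈ R0, y * x ∈ R0 := by
    intro y hy x hx
    refine ⟨hAm y hy x hx.1, fun z hz => ?_⟩
    rw [Matrix.mul_assoc, Matrix.trace_mul_comm, Matrix.mul_assoc]
    exact hx.2 _ (hAm z hz y hy)
  have hApow : ∀ x ∈ A, ∀ k : ℕ, x ^ k ∈ A := by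
    intro x hx k
    induction k with
    | zero => rw [pow_zero]; exact hA1
    | succ k ih => rw [pow_succ]; exact hAm _ ih _ hx
  have hRn : ∀ x ∈ R0, IsNilpotent x := by
    intro x hx
    apply nilp
    intro k
    rw [pow_succ']
    exact hx.2 _ (hApow x hx.1 k)
  have hRc : ∀ γ, ∀ x ∈ R0, ρ γ * x * ρ γ⁻¹ ∈ R0 := by
    intro γ x hx
    refine ⟨hAc γ x hx.1, fun y hy => ?_⟩
    have h2 := hAc γ⁻¹ y hy
    rw [inv_inv] at h2
    have h3 := hx.2 _ h2
    rw [← Matrix.trace_mul_comm] at h3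
    have h4 : (ρ γ * x * ρ γ⁻¹ * y).trace = (x * (ρ γ⁻¹ * y * ρ γ)).trace := by
      rw [Matrix.mul_assoc, Matrix.mul_assoc, Matrix.trace_mul_comm, Matrix.mul_assoc]
    rw [h4]
    exact hx.2 _ h2
  -- a minimal stable subspace
  let St : Set (Submodule ℂ (Fin b → ℂ)) := {U | U ≠ ⊥ ∧ ∀ x ∈ A, ∀ v ∈ U, x *ᵥ v ∈ U}
  have hne : St.Nonempty := by
    have : Nonempty (Fin b) := ⟨⟨0, hb⟩⟩
    exact ⟨⊤, top_ne_bot, fun _ _ _ _ => trivial⟩
  have hwf : WellFounded ((· < ·) : Submodule ℂ (Fin b → ℂ) → Submodule ℂ (Fin b → ℂ) → Prop) :=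
    wellFounded_lt
  obtain ⟨U, ⟨hU0, hUs⟩, hUm⟩ := hwf.has_min St hne
  have hkill : ∀ u ∈ U, ∀ x ∈ R0, x *ᵥ u = 0 := by
    intro u hu
    let ev : Matrix (Fin b) (Fin b) ℂ →ₗ[ℂ] (Fin b → ℂ) :=
      { toFun := fun x => x *ᵥ u
        map_add' := fun x y => Matrix.add_mulVec x y u
        map_smul' := fun c x => by rw [Matrix.smul_mulVec, RingHom.id_apply] }
    have hev : ∀ x, ev x = x *ᵥ u := fun _ => rfl
    by_contra hne
    push Not at hne
    obtain ⟨y, hy, hyu⟩ := hne
    have h2 : R0.map ev ∈ St := by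
      refine ⟨fun h => hyu ?_, ?_⟩
      · have h3 : ev y ∈ R0.map ev := Submodule.mem_map_of_mem hy
        rw [h, Submodule.mem_bot] at h3
        exact h3
      · rintro z hz _ ⟨w, hw, rfl⟩
        refine ⟨z * w, hRl z hz w hw, ?_⟩
        rw [hev, hev, Matrix.mulVec_mulVec]
    have h3 : R0.map ev ≤ U := by
      rintro _ ⟨w, hw, rfl⟩
      exact hUs w hw.1 u hu
    have h4 : R0.map ev = U := by
      by_contra h5
      exact hUm _ h2 (lt_of_le_of_ne h3 h5)
    have h5 : u ∈ R0.map ev := by rw [h4]; exact hu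
    obtain ⟨w, hw, hwu⟩ := h5
    obtain ⟨k, hk⟩ := hRn w hw
    have h6 : ∀ k : ℕ, w ^ k *ᵥ u = u := by
      intro k
      induction k with
      | zero => rw [pow_zero, Matrix.one_mulVec]
      | succ k ih =>
        rw [pow_succ, ← Matrix.mulVec_mulVec]
        rw [hev] at hwu
        rw [hwu, ih]
    have h7 := h6 k
    rw [hk, Matrix.zero_mulVec] at h7
    apply hyu
    rw [← h7, Matrix.mulVec_zero]
  -- the common kernel
  let W : Submodule ℂ (Fin b → ℂ) :=
    { carrier := {v | ∀ x ∈ R0, x *ᵥ v = 0}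
      add_mem' := fun {v w} hv hw x hx => by rw [Matrix.mulVec_add, hv x hx, hw x hx, add_zero]
      zero_mem' := fun x _ => Matrix.mulVec_zero x
      smul_mem' := fun c v hv x hx => by rw [Matrix.mulVec_smul, hv x hx, smul_zero] }
  have hW : W = ⊥ ∨ W = ⊤ := by
    apply hρ W
    intro γ _ v hv x hx
    have h2 := hv _ (hRc γ⁻¹ x hx)
    rw [inv_inv] at h2
    have h3 : x *ᵥ (ρ γ *ᵥ v) = ρ γ *ᵥ ((ρ γ⁻¹ * x * ρ γ) *ᵥ v) := by
      rw [Matrix.mulVec_mulVec, Matrix.mulVec_mulVec, ← Matrix.mul_assoc, ← Matrix.mul_assoc, hinv,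
        Matrix.one_mul]
    rw [h3, h2, Matrix.mulVec_zero]
  rcases hW with hW | hW
  · exfalso
    apply hU0
    rw [eq_bot_iff, ← hW]
    intro u hu y hy
    exact hkill u hu y hy
  · have h2 : ∀ v, x *ᵥ v = 0 := by
      intro v
      have h3 : v ∈ W := by rw [hW]; trivial
      exact h3 x hxR
    apply Matrix.ext_of_mulVec_single
    intro i
    rw [h2, Matrix.zero_mulVec]

/-- **Burnside.** A set of matrices which is stable under products and under conjugation by an
irreducible group is finite if the traces take only finitely many values. -/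
theorem finite_of_traces (hb : 0 < b) (ρ : Γ →* Matrix (Fin b) (Fin b) ℂ) (hρ : Irr ρ Set.univ)
    (h1 : (1 : Matrix (Fin b) (Fin b) ℂ) ∈ Q) (hm : ∀ x ∈ Q, ∀ y ∈ Q, x * y ∈ Q)
    (hc : ∀ γ, ∀ x ∈ Q, ρ γ * x * ρ γ⁻¹ ∈ Q) (ht : (Matrix.trace '' Q).Finite) : Q.Finite := by
  obtain ⟨s, hs, hs'⟩ := (Submodule.fg_span_iff_fg_span_finset_subset Q).1
    (IsNoetherian.noetherian (Submodule.span ℂ Q))
  let F : Matrix (Fin b) (Fin b) ℂ → (s → ℂ) := fun x y => (x * y).trace
  have h2 : (F '' Q).Finite := by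
    refine (Set.Finite.pi' (t := fun _ : s => Matrix.trace '' Q) fun _ => ht).subset ?_
    rintro _ ⟨x, hx, rfl⟩ y
    exact ⟨x * y, hm x hx y (hs y.2), rfl⟩
  refine Set.Finite.of_finite_image h2 ?_
  intro x hx y hy hxy
  rw [← sub_eq_zero]
  apply nondeg Q hb ρ hρ h1 hm hc
  · exact Submodule.sub_mem _ (Submodule.subset_span hx) (Submodule.subset_span hy)
  · have key : ∀ z ∈ Submodule.span ℂ (s : Set (Matrix (Fin b) (Fin b) ℂ)),
        ((x - y) * z).trace = 0 := by
      intro z h3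
      induction h3 using Submodule.span_induction with
      | mem z hz' =>
        have h4 := congrFun hxy ⟨z, hz'⟩
        rw [sub_mul, Matrix.trace_sub, sub_eq_zero]
        exact h4
      | zero => rw [mul_zero, Matrix.trace_zero]
      | add z w _ _ h5 h6 => rw [mul_add, Matrix.trace_add, h5, h6, add_zero]
      | smul a z _ h5 => rw [Matrix.mul_smul, Matrix.trace_smul, h5, smul_zero]
    intro z hz
    apply key
    rw [← hs']
    exact Submodule.subset_span hz

end Run7.h199.ZO
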