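import Mathlib

/-!
# Words with a given product
-/

set_option autoImplicit false

open Finset

namespace Run7.h199.ZO

open Classical in
/-- The number of words of length `n` with product `z`. -/
noncomputable def cnt {b : ℕ} (l : Fin b → ℂ) (n : ℕ) (z : ℂ) : ℕ :=
  ∑ x : Fin n → Fin b, if ∏ i, l (x i) = z then 1 else 0

variable {b : ℕ} {l : Fin b → ℂ}

lemma sum_cons (n : ℕ) (F : (Fin (n + 1) → Fin b) → ℕ) :
    ∑ x, F x = ∑ i : Fin b, ∑ x : Fin n → Fin b, F (Fin.cons i x) := by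
  rw [← (Fin.consEquiv (fun _ : Fin (n + 1) => Fin b)).sum_comp F, Fintype.sum_prod_type]
  rfl

lemma cnt_succ (hl : ∀ i, l i ≠ 0) (n : ℕ) (z : ℂ) :
    cnt l (n + 1) z = ∑ i, cnt l n (z / l i) := by
  classical
  rw [cnt, sum_cons]
  refine sum_congr rfl fun i _ => ?_
  rw [cnt]
  refine sum_congr rfl fun x _ => ?_
  rw [Fin.prod_univ_succ]
  simp only [Fin.cons_zero, Fin.cons_succ]
  congr 1
  rw [eq_div_iff (hl i), mul_comm]

lemma cnt_add (hl : ∀ i, l i ≠ 0) (n k : ℕ) (z : ℂ) :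
    cnt l (n + k) z = ∑ x : Fin k → Fin b, cnt l n (z / ∏ i, l (x i)) := by
  induction k generalizing z with
  | zero => simp
  | succ k ih =>
    rw [← add_assoc, cnt_succ hl, sum_cons]
    refine sum_congr rfl fun i _ => ?_
    rw [ih]
    refine sum_congr rfl fun x _ => ?_
    rw [Fin.prod_univ_succ]
    simp only [Fin.cons_zero, Fin.cons_succ]
    rw [div_div]

lemma cnt_sum_le (n : ℕ) (S : Finset ℂ) : ∑ z ∈ S, cnt l n z ≤ b ^ n := by
  classical
  simp only [cnt]
  rw [sum_comm]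
  calc _ ≤ ∑ x : Fin n → Fin b, 1 := by
        refine sum_le_sum fun x _ => ?_
        rw [sum_ite_eq]
        split_ifs <;> simp
    _ = b ^ n := by simp

lemma cnt_le (n : ℕ) (z : ℂ) : cnt l n z ≤ b ^ n := by
  have := cnt_sum_le (l := l) n {z}
  simpa using this

lemma mono (hl : ∀ i, l i ≠ 0) {t : ℝ} {n : ℕ} (h : ∀ z, (cnt l n z : ℝ) ≤ t * b ^ n) (k : ℕ) (z : ℂ) :
    (cnt l (n + k) z : ℝ) ≤ t * b ^ (n + k) := by
  rw [cnt_add hl]
  push_cast
  calc _ ≤ ∑ x : Fin k → Fin b, t * (b : ℝ) ^ n := sum_le_sum fun x _ => h _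
    _ = t * b ^ (n + k) := by
      simp
      ring

lemma back (hl : ∀ i, l i ≠ 0) {t s : ℝ} {n : ℕ} (h : ∀ z, (cnt l n z : ℝ) ≤ t * b ^ n) (k : ℕ)
    (z : ℂ) (hz : s * b ^ (n + k) < (cnt l (n + k) z : ℝ)) (x : Fin k → Fin b) :
    (t - (t - s) * b ^ k) * b ^ n < (cnt l n (z / ∏ i, l (x i)) : ℝ) := by
  classical
  rw [cnt_add hl] at hz
  push_cast at hz
  rw [← Finset.add_sum_erase _ _ (mem_univ x)] at hz
  have h1 : ∑ y ∈ univ.erase x, (cnt l n (z / ∏ i, l (y i)) : ℝ) ≤
      ∑ y ∈ univ.erase x, t * (b : ℝ) ^ n := sum_le_sum fun y _ => h _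
  have h2 : ∑ y ∈ univ.erase x, t * (b : ℝ) ^ n = (b ^ k - 1 : ℝ) * (t * b ^ n) := by
    rw [sum_const, card_erase_of_mem (mem_univ x), nsmul_eq_mul]
    congr 1
    have h3 : 1 ≤ (univ : Finset (Fin k → Fin b)).card := card_pos.2 ⟨x, mem_univ x⟩
    rw [Nat.cast_sub h3]
    simp
  rw [h2] at h1
  have h3 : s * (b : ℝ) ^ (n + k) = s * b ^ k * b ^ n := by rw [pow_add]; ring
  rw [h3] at hz
  nlinarith

lemma prod_word (i j : Fin b) (hl : ∀ i, l i ≠ 0) (M a : ℕ) (ha : a ≤ M) :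
    ∏ t : Fin M, l (if (t : ℕ) < a then i else j) = l j ^ M * (l i / l j) ^ a := by
  have h1 : ∀ t : Fin M, l (if (t : ℕ) < a then i else j) =
      l j * (if (t : ℕ) < a then l i / l j else 1) := by
    intro t
    split_ifs
    · rw [mul_div_cancel₀ _ (hl j)]
    · rw [mul_one]
  rw [prod_congr rfl fun t _ => h1 t, prod_mul_distrib, prod_const, card_univ, Fintype.card_fin]
  congr 1
  rw [prod_ite, prod_const, prod_const, one_pow, mul_one]
  congr 1
  have h2 : (univ.filter fun t : Fin M => (t : ℕ) < a) = univ.map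
      ⟨Fin.castLE ha, Fin.castLE_injective ha⟩ := by
    ext t
    simp only [mem_filter, mem_univ, true_and, mem_map, Function.Embedding.coeFn_mk]
    constructor
    · intro h
      exact ⟨⟨t, h⟩, rfl⟩
    · rintro ⟨y, rfl⟩
      exact y.2
  rw [h2, card_map]
  simp

/-- If the ratio of two letters has order more than `M`, then a word has a given product with
probability at most `2 / (M + 1)` if it is long. -/
theorem rare (hb : 0 < b) (hl : ∀ i, l i ≠ 0) (i j : Fin b) (M : ℕ)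
    (h : ∀ k, 1 ≤ k → k ≤ M → (l i / l j) ^ k ≠ 1) :
    ∃ n₀, ∀ n ≥ n₀, ∀ z, (cnt l n z : ℝ) ≤ 2 / (M + 1) * b ^ n := by
  classical
  set A : Set ℝ := {t | 0 ≤ t ∧ ∃ n, ∀ z, (cnt l n z : ℝ) ≤ t * b ^ n} with hA
  have hbR : (1 : ℝ) ≤ b := by exact_mod_cast hb
  have hA0 : (1 : ℝ) ∈ A := ⟨by norm_num, 0, fun z => by
    rw [one_mul]
    exact_mod_cast cnt_le (l := l) 0 z⟩
  have hA1 : BddBelow A := ⟨0, fun t ht => ht.1⟩
  have hM : (0 : ℝ) < M + 1 := by positivity
  have key : sInf A < 2 / (M + 1) := by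
    set δ : ℝ := 1 / (2 * ((M + 1) * (b : ℝ) ^ M)) with hδ
    have hbM : (1 : ℝ) ≤ (b : ℝ) ^ M := one_le_pow₀ hbR
    have hδ0 : 0 < δ := by positivity
    have hδ1 : 2 * δ * (b : ℝ) ^ M = 1 / (M + 1) := by
      rw [hδ]
      field_simp
    obtain ⟨t, ⟨ht0, n, hn⟩, ht⟩ := exists_lt_of_csInf_lt ⟨1, hA0⟩ (lt_add_of_pos_right (sInf A) hδ0)
    by_contra hq
    push Not at hq
    have h1 : sInf A - δ ∉ A := fun h => absurd (csInf_le hA1 h) (by linarith)
    have h2 : (0 : ℝ) ≤ sInf A - δ := by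
      have h3 : δ ≤ 2 * δ * (b : ℝ) ^ M := by nlinarith
      have h4 : 1 / ((M : ℝ) + 1) ≤ 2 / (M + 1) := by
        gcongr
        norm_num
      linarith
    have h3 : ∃ z, (sInf A - δ) * b ^ (n + M) < (cnt l (n + M) z : ℝ) := by
      by_contra h4
      push Not at h4
      exact h1 ⟨h2, _, h4⟩
    obtain ⟨z, hz⟩ := h3
    have h4 := back hl hn M z hz
    have h5 : ∀ a ∈ range (M + 1), (1 / ((M : ℝ) + 1)) * b ^ n <
        (cnt l n (z / (l j ^ M * (l i / l j) ^ a)) : ℝ) := by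
      intro a ha
      have ha' : a ≤ M := Nat.lt_succ_iff.1 (mem_range.1 ha)
      have h6 := h4 fun t : Fin M => if (t : ℕ) < a then i else j
      rw [prod_word i j hl M a ha'] at h6
      refine lt_of_le_of_lt ?_ h6
      have hbn : (0 : ℝ) < (b : ℝ) ^ n := by positivity
      refine mul_le_mul_of_nonneg_right ?_ hbn.le
      have h7 : (t - (sInf A - δ)) * (b : ℝ) ^ M ≤ 1 / (M + 1) := by
        rw [← hδ1]
        refine mul_le_mul_of_nonneg_right ?_ (by positivity)
        linarith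
      have h8 : sInf A ≤ t := csInf_le hA1 ⟨ht0, n, hn⟩
      have h9 : 2 / ((M : ℝ) + 1) = 1 / (M + 1) + 1 / (M + 1) := by ring
      linarith
    have h6 := sum_lt_sum_of_nonempty (s := range (M + 1)) ⟨0, by simp⟩ h5
    rw [sum_const, card_range, nsmul_eq_mul] at h6
    have hinj : Set.InjOn (fun a => z / (l j ^ M * (l i / l j) ^ a)) (range (M + 1) : Finset ℕ) := by
      have hr : l i / l j ≠ 0 := div_ne_zero (hl i) (hl j)
      have aux : ∀ a c : ℕ, a < c → c ≤ M → z / (l j ^ M * (l i / l j) ^ a) ≠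
          z / (l j ^ M * (l i / l j) ^ c) := by
        intro a c hac hc h
        have hz0 : z ≠ 0 := by
          rintro rfl
          have h7 := h4 fun _ => i
          rw [zero_div] at h7
          have h8 : cnt l n 0 = 0 := by
            rw [cnt]
            refine sum_eq_zero fun x _ => ?_
            rw [if_neg (prod_ne_zero_iff.2 fun i _ => hl _)]
          rw [h8] at h7
          have h9 : (t - (sInf A - δ)) * (b : ℝ) ^ M ≤ 1 / (M + 1) := by
            rw [← hδ1]
            refine mul_le_mul_of_nonneg_right ?_ (by positivity)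
            linarith
          have h10 : sInf A ≤ t := csInf_le hA1 ⟨ht0, n, hn⟩
          have h11 : 2 / ((M : ℝ) + 1) = 1 / (M + 1) + 1 / (M + 1) := by ring
          have h12 : (0 : ℝ) < 1 / (M + 1) := by positivity
          have h13 : 0 ≤ (t - (t - (sInf A - δ)) * (b : ℝ) ^ M) * b ^ n :=
            mul_nonneg (by linarith) (by positivity)
          push_cast at h7
          linarith
        have hj : l j ^ M ≠ 0 := pow_ne_zero _ (hl j)
        have hr1 : l j ^ M * (l i / l j) ^ a ≠ 0 := mul_ne_zero hj (pow_ne_zero _ hr)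
        have hr2 : l j ^ M * (l i / l j) ^ c ≠ 0 := mul_ne_zero hj (pow_ne_zero _ hr)
        rw [div_eq_div_iff hr1 hr2] at h
        have h7 := (mul_left_cancel₀ hj (mul_left_cancel₀ hz0 h)).symm
        obtain ⟨d, rfl⟩ := Nat.exists_eq_add_of_lt hac
        rw [show a + d + 1 = a + (d + 1) by ring, pow_add] at h7
        have h8 : (l i / l j) ^ (d + 1) = 1 := by
          have h9 : (l i / l j) ^ a * 1 = (l i / l j) ^ a * (l i / l j) ^ (d + 1) := by
            rw [mul_one]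
            exact h7
          exact (mul_left_cancel₀ (pow_ne_zero _ hr) h9).symm
        exact ‹∀ k, 1 ≤ k → k ≤ M → (l i / l j) ^ k ≠ 1› (d + 1) (by omega) (by omega) h8
      intro a ha c hc hac
      have ha' : a ≤ M := Nat.lt_succ_iff.1 (mem_range.1 ha)
      have hc' : c ≤ M := Nat.lt_succ_iff.1 (mem_range.1 hc)
      rcases lt_trichotomy a c with h7 | h7 | h7
      · exact absurd hac (aux a c h7 hc')
      · exact h7
      · exact absurd hac.symm (aux c a h7 ha')
    have h7 : (∑ a ∈ range (M + 1), (cnt l n (z / (l j ^ M * (l i / l j) ^ a)) : ℝ)) ≤ b ^ n := by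
      rw [← sum_image (f := fun w => (cnt l n w : ℝ)) hinj]
      exact_mod_cast cnt_sum_le n _
    have h8 : ((M + 1 : ℕ) : ℝ) * (1 / ((M : ℝ) + 1) * b ^ n) = b ^ n := by
      push_cast
      field_simp
    rw [h8] at h6
    linarith
  obtain ⟨t, ⟨ht0, n, hn⟩, ht⟩ := exists_lt_of_csInf_lt ⟨1, hA0⟩ key
  refine ⟨n, fun m hm z => ?_⟩
  obtain ⟨k, rfl⟩ := Nat.exists_eq_add_of_le hm
  exact (mono hl hn k z).trans (mul_le_mul_of_nonneg_right ht.le (by positivity))

end Run7.h199.ZO
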