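import Pool.Agent.Run7.h199.ZO.Main

/-!
# An explicit bound for the share
-/

set_option autoImplicit false
set_option linter.unusedSectionVars false
set_option linter.deprecated false

open Finset

namespace Run7.h199.ZO

/-- The shift by `c`. -/
noncomputable def sh (c : ℂ) : Module.End ℝ (ℂ → ℝ) where
  toFun F z := F (z / c)
  map_add' _ _ := rfl
  map_smul' _ _ := rfl

lemma sh_apply (c : ℂ) (F : ℂ → ℝ) (z : ℂ) : sh c F z = F (z / c) := rfl

lemma sh_comm (c d : ℂ) : Commute (sh c) (sh d) := by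
  apply LinearMap.ext
  intro F
  funext z
  show F (z / c / d) = F (z / d / c)
  rw [div_right_comm]

lemma sh_pow (c : ℂ) (k : ℕ) (F : ℂ → ℝ) (z : ℂ) : (sh c ^ k) F z = F (z / c ^ k) := by
  induction k generalizing F with
  | zero => simp
  | succ k ih =>
    rw [pow_succ, Module.End.mul_apply, ih, sh_apply, div_div, ← pow_succ]

lemma pair_pow (c d : ℂ) (k : ℕ) (F : ℂ → ℝ) (z : ℂ) : ((sh c + sh d) ^ k) F z =
    ∑ a ∈ range (k + 1), (k.choose a : ℝ) * F (z / (c ^ a * d ^ (k - a))) := by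
  rw [(sh_comm c d).add_pow, LinearMap.sum_apply, Finset.sum_apply]
  refine sum_congr rfl fun a _ => ?_
  rw [Module.End.mul_apply, Module.End.mul_apply, sh_pow, sh_pow, div_div]
  have h1 : ((k.choose a : ℕ) : Module.End ℝ (ℂ → ℝ)) F = (k.choose a : ℝ) • F := by
    rw [Module.End.natCast_apply]
    funext z
    simp
  rw [h1]
  rfl

/-- `F` is nonnegative and its sum over every finite set is at most `m`. -/
def Mass (F : ℂ → ℝ) (m : ℝ) : Prop := (∀ z, 0 ≤ F z) ∧ ∀ S : Finset ℂ, ∑ z ∈ S, F z ≤ m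

lemma Mass.nonneg {F : ℂ → ℝ} {m : ℝ} (h : Mass F m) : 0 ≤ m := by
  have := h.2 ∅
  simpa using this

lemma Mass.sh {F : ℂ → ℝ} {m : ℝ} (h : Mass F m) {c : ℂ} (hc : c ≠ 0) :
    Mass (Run7.h199.ZO.sh c F) m := by
  classical
  refine ⟨fun z => h.1 _, fun S => ?_⟩
  have h1 := h.2 (S.image fun z => z / c)
  rw [sum_image (by
    intro x _ y _ hxy
    exact (div_left_inj' hc).1 hxy)] at h1
  exact h1

lemma Mass.add {F G : ℂ → ℝ} {m m' : ℝ} (h : Mass F m) (h' : Mass G m') : Mass (F + G) (m + m') :=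
  ⟨fun z => add_nonneg (h.1 z) (h'.1 z), fun S => by
    simp only [Pi.add_apply]
    rw [sum_add_distrib]
    exact add_le_add (h.2 S) (h'.2 S)⟩

variable {b : ℕ} {l : Fin b → ℂ}

lemma Mass.rest (hl : ∀ i, l i ≠ 0) {F : ℂ → ℝ} {m : ℝ} (h : Mass F m) (T : Finset (Fin b)) :
    Mass ((∑ t ∈ T, Run7.h199.ZO.sh (l t)) F) (T.card * m) := by
  classical
  induction T using Finset.induction_on with
  | empty =>
    rw [sum_empty, card_empty, Nat.cast_zero, zero_mul]
    exact ⟨fun z => le_rfl, fun S => by simp⟩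
  | insert a T ha ih =>
    rw [sum_insert ha, card_insert_of_notMem ha, LinearMap.add_apply]
    have h1 := (h.sh (hl a)).add ih
    have h2 : m + T.card * m = ((T.card + 1 : ℕ) : ℝ) * m := by push_cast; ring
    rwa [h2] at h1

lemma Mass.rest_pow (hl : ∀ i, l i ≠ 0) {F : ℂ → ℝ} {m : ℝ} (h : Mass F m) (T : Finset (Fin b))
    (k : ℕ) : Mass (((∑ t ∈ T, Run7.h199.ZO.sh (l t)) ^ k) F) ((T.card : ℝ) ^ k * m) := by
  induction k with
  | zero => simpa using h
  | succ k ih =>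
    rw [pow_succ', Module.End.mul_apply, pow_succ', mul_assoc]
    exact ih.rest hl T

lemma pair_bound {c d : ℂ} (hc : c ≠ 0) (hd : d ≠ 0) {k : ℕ}
    (h : ∀ k', 1 ≤ k' → k' ≤ k → (c / d) ^ k' ≠ 1) {F : ℂ → ℝ} {m : ℝ} (hF : Mass F m) {z : ℂ}
    (hz : z ≠ 0) : ((sh c + sh d) ^ k) F z ≤ (k.choose (k / 2) : ℝ) * m := by
  classical
  rw [pair_pow]
  have h1 : ∑ a ∈ range (k + 1), (k.choose a : ℝ) * F (z / (c ^ a * d ^ (k - a))) ≤
      ∑ a ∈ range (k + 1), (k.choose (k / 2) : ℝ) * F (z / (c ^ a * d ^ (k - a))) := by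
    refine sum_le_sum fun a _ => mul_le_mul_of_nonneg_right ?_ (hF.1 _)
    exact_mod_cast Nat.choose_le_middle a k
  refine h1.trans ?_
  rw [← mul_sum]
  refine mul_le_mul_of_nonneg_left ?_ (by positivity)
  have aux : ∀ a e : ℕ, a < e → e ≤ k → z / (c ^ a * d ^ (k - a)) ≠ z / (c ^ e * d ^ (k - e)) := by
    intro a e hae hek heq
    have n1 : c ^ a * d ^ (k - a) ≠ 0 := mul_ne_zero (pow_ne_zero _ hc) (pow_ne_zero _ hd)
    have n2 : c ^ e * d ^ (k - e) ≠ 0 := mul_ne_zero (pow_ne_zero _ hc) (pow_ne_zero _ hd)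
    rw [div_eq_div_iff n1 n2] at heq
    have h2 := mul_left_cancel₀ hz heq
    obtain ⟨f, rfl⟩ := Nat.exists_eq_add_of_lt hae
    have h3 : k - a = (k - (a + f + 1)) + (f + 1) := by omega
    rw [h3, show a + f + 1 = a + (f + 1) by ring, pow_add c, pow_add d] at h2
    have h4 : (c / d) ^ (f + 1) = 1 := by
      rw [div_pow, div_eq_one_iff_eq (pow_ne_zero _ hd)]
      have h5 : c ^ a * d ^ (k - (a + (f + 1))) ≠ 0 :=
        mul_ne_zero (pow_ne_zero _ hc) (pow_ne_zero _ hd)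
      apply mul_left_cancel₀ h5
      linear_combination h2
    exact h (f + 1) (by omega) (by omega) h4
  have hinj : Set.InjOn (fun a => z / (c ^ a * d ^ (k - a))) (range (k + 1) : Finset ℕ) := by
    intro a ha e he hae
    have ha' : a ≤ k := Nat.lt_succ_iff.1 (mem_range.1 ha)
    have he' : e ≤ k := Nat.lt_succ_iff.1 (mem_range.1 he)
    rcases lt_trichotomy a e with h7 | h7 | h7
    · exact absurd hae (aux a e h7 he')
    · exact h7
    · exact absurd hae.symm (aux e a h7 ha')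
  rw [← sum_image (f := F) hinj]
  exact hF.2 _

/-- The function which is one at `1`. -/
noncomputable def dl : ℂ → ℝ := by
  classical
  exact fun z => if z = 1 then 1 else 0

lemma mass_dl : Mass dl 1 := by
  classical
  refine ⟨fun z => ?_, fun S => ?_⟩
  · unfold dl
    split_ifs <;> norm_num
  · simp only [dl]
    rw [sum_ite_eq']
    split_ifs <;> norm_num

lemma cnt_eq_pow (hl : ∀ i, l i ≠ 0) (n : ℕ) (z : ℂ) :
    (cnt l n z : ℝ) = ((∑ t, sh (l t)) ^ n) dl z := by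
  classical
  induction n generalizing z with
  | zero =>
    rw [pow_zero, Module.End.one_apply]
    simp [cnt, dl, eq_comm]
  | succ n ih =>
    rw [cnt_succ hl, pow_succ', Module.End.mul_apply, LinearMap.sum_apply, Finset.sum_apply]
    push_cast
    exact sum_congr rfl fun t _ => ih _

lemma cnt_zero' (hl : ∀ i, l i ≠ 0) (n : ℕ) : cnt l n 0 = 0 := by
  rw [cnt]
  refine sum_eq_zero fun x _ => ?_
  rw [if_neg (prod_ne_zero_iff.2 fun i _ => hl _)]

/-- The combinatorial bound. -/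
lemma cnt_le_sum (hl : ∀ i, l i ≠ 0) {i j : Fin b} (hij : i ≠ j) {n : ℕ}
    (h : ∀ k, 1 ≤ k → k ≤ n → (l i / l j) ^ k ≠ 1) (z : ℂ) :
    (cnt l n z : ℝ) ≤ ∑ k ∈ range (n + 1),
      ((n.choose k : ℝ) * ((b - 2 : ℕ) : ℝ) ^ (n - k)) * (k.choose (k / 2) : ℝ) := by
  classical
  by_cases hz : z = 0
  · rw [hz, cnt_zero' hl]
    push_cast
    exact sum_nonneg fun k _ => by positivity
  · have h1 : (∑ t, sh (l t)) = (sh (l i) + sh (l j)) + ∑ t ∈ (univ.erase i).erase j, sh (l t) := by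
      rw [← add_sum_erase _ _ (mem_univ i), ← add_sum_erase (univ.erase i) _
        (mem_erase.2 ⟨hij.symm, mem_univ j⟩), add_assoc]
    have hcard : ((univ.erase i).erase j).card = b - 2 := by
      rw [card_erase_of_mem (mem_erase.2 ⟨hij.symm, mem_univ j⟩), card_erase_of_mem (mem_univ i),
        card_univ, Fintype.card_fin]
      rfl
    have hcomm : Commute (sh (l i) + sh (l j)) (∑ t ∈ (univ.erase i).erase j, sh (l t)) := by
      apply Commute.add_left
      · exact Commute.sum_right _ _ _ fun t _ => sh_comm _ _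
      · exact Commute.sum_right _ _ _ fun t _ => sh_comm _ _
    rw [cnt_eq_pow hl, h1, hcomm.add_pow, LinearMap.sum_apply, Finset.sum_apply]
    refine sum_le_sum fun k hk => ?_
    have hkn : k ≤ n := Nat.lt_succ_iff.1 (mem_range.1 hk)
    rw [Module.End.mul_apply, Module.End.mul_apply]
    have h2 : ((n.choose k : ℕ) : Module.End ℝ (ℂ → ℝ)) dl = (n.choose k : ℝ) • dl := by
      rw [Module.End.natCast_apply]
      funext z
      simp
    rw [h2, map_smul, map_smul, Pi.smul_apply, smul_eq_mul, mul_assoc]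
    refine mul_le_mul_of_nonneg_left ?_ (by positivity)
    have h3 := mass_dl.rest_pow hl ((univ.erase i).erase j) (n - k)
    rw [hcard, mul_one] at h3
    rw [mul_comm]
    exact pair_bound (hl i) (hl j) (fun k' h5 h6 => h k' h5 (h6.trans hkn)) h3 hz

lemma central_sq (m : ℕ) : (m.centralBinom) ^ 2 * (2 * m + 1) ≤ 16 ^ m := by
  induction m with
  | zero => simp
  | succ m ih =>
    have h1 := Nat.succ_mul_centralBinom_succ m
    have h2 : (m + 1) ^ 2 * ((m + 1).centralBinom ^ 2 * (2 * (m + 1) + 1)) ≤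
        (m + 1) ^ 2 * 16 ^ (m + 1) := by
      calc (m + 1) ^ 2 * ((m + 1).centralBinom ^ 2 * (2 * (m + 1) + 1))
          = ((m + 1) * (m + 1).centralBinom) ^ 2 * (2 * m + 3) := by ring
        _ = (2 * (2 * m + 1) * m.centralBinom) ^ 2 * (2 * m + 3) := by rw [h1]
        _ = 4 * ((2 * m + 1) * (2 * m + 3)) * (m.centralBinom ^ 2 * (2 * m + 1)) := by ring
        _ ≤ 4 * ((2 * m + 1) * (2 * m + 3)) * 16 ^ m := Nat.mul_le_mul_left _ ih
        _ ≤ (4 * (4 * (m + 1) ^ 2)) * 16 ^ m := by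
            refine Nat.mul_le_mul_right _ (Nat.mul_le_mul_left _ ?_)
            nlinarith
        _ = (m + 1) ^ 2 * 16 ^ (m + 1) := by ring
    exact Nat.le_of_mul_le_mul_left h2 (by positivity)

lemma middle_sq (k : ℕ) : (k.choose (k / 2)) ^ 2 * (k + 1) ≤ 4 ^ k := by
  rcases Nat.even_or_odd' k with ⟨m, rfl | rfl⟩
  · have h1 := central_sq m
    rw [Nat.centralBinom_eq_two_mul_choose] at h1
    rw [show 2 * m / 2 = m by omega, pow_mul]
    exact h1
  · have h1 := central_sq m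
    rw [Nat.centralBinom_eq_two_mul_choose] at h1
    rw [show (2 * m + 1) / 2 = m by omega]
    have h2 : (m + 1) * (2 * m + 1).choose m = (2 * m + 1) * (2 * m).choose m := by
      have h3 := Nat.add_one_mul_choose_eq (2 * m) m
      have h4 : (2 * m + 1).choose (m + 1) = (2 * m + 1).choose m := by
        rw [← Nat.choose_symm (show m + 1 ≤ 2 * m + 1 by omega)]
        congr 1
        omega
      rw [h4] at h3
      linarith
    have h5 : (m + 1) ^ 2 * ((2 * m + 1).choose m ^ 2 * (2 * m + 1 + 1)) ≤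
        (m + 1) ^ 2 * 4 ^ (2 * m + 1) := by
      calc (m + 1) ^ 2 * ((2 * m + 1).choose m ^ 2 * (2 * m + 1 + 1))
          = ((m + 1) * (2 * m + 1).choose m) ^ 2 * (2 * m + 2) := by ring
        _ = ((2 * m + 1) * (2 * m).choose m) ^ 2 * (2 * m + 2) := by rw [h2]
        _ = (2 * m + 1) * (2 * m + 2) * ((2 * m).choose m ^ 2 * (2 * m + 1)) := by ring
        _ ≤ (2 * m + 1) * (2 * m + 2) * 16 ^ m := Nat.mul_le_mul_left _ h1
        _ ≤ (4 * (m + 1) ^ 2) * 16 ^ m := by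
            refine Nat.mul_le_mul_right _ ?_
            nlinarith
        _ = (m + 1) ^ 2 * 4 ^ (2 * m + 1) := by
            rw [show (4 : ℕ) ^ (2 * m + 1) = 16 ^ m * 4 by rw [pow_succ, pow_mul]; norm_num]
            ring
    exact Nat.le_of_mul_le_mul_left h5 (by positivity)

/-- **The explicit bound.** -/
theorem cnt_sq_le (hl : ∀ i, l i ≠ 0) {i j : Fin b} (hij : i ≠ j) {n : ℕ}
    (h : ∀ k, 1 ≤ k → k ≤ n → (l i / l j) ^ k ≠ 1) (z : ℂ) :
    (cnt l n z : ℝ) ^ 2 ≤ b / (2 * (n + 1)) * ((b : ℝ) ^ n) ^ 2 := by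
  have hb2 : 2 ≤ b := by
    have h1 := i.isLt
    have h2 := j.isLt
    have h3 : (i : ℕ) ≠ j := fun h => hij (Fin.ext h)
    omega
  have hbc : ((b - 2 : ℕ) : ℝ) + 2 = b := by
    rw [Nat.cast_sub hb2]
    push_cast
    ring
  set c : ℝ := ((b - 2 : ℕ) : ℝ) with hc
  have hc0 : 0 ≤ c := Nat.cast_nonneg _
  have h1 := cnt_le_sum hl hij h z
  have h2 : (∑ k ∈ range (n + 1), ((n.choose k : ℝ) * c ^ (n - k)) * (k.choose (k / 2) : ℝ)) ^ 2 ≤
      (∑ k ∈ range (n + 1), ((n.choose k : ℝ) * c ^ (n - k)) * 2 ^ k) *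
      (∑ k ∈ range (n + 1), ((n.choose k : ℝ) * c ^ (n - k)) * (2 ^ k / (k + 1))) := by
    have h3 : (∑ k ∈ range (n + 1), ((n.choose k : ℝ) * c ^ (n - k)) * (k.choose (k / 2) : ℝ)) ^ 2 ≤
        (∑ k ∈ range (n + 1), ((n.choose k : ℝ) * c ^ (n - k)) * 2 ^ k) *
        (∑ k ∈ range (n + 1), ((n.choose k : ℝ) * c ^ (n - k)) *
          ((k.choose (k / 2) : ℝ) ^ 2 / 2 ^ k)) := by
      apply Finset.sum_sq_le_sum_mul_sum_of_sq_eq_mul
      · intro k _
        positivity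
      · intro k _
        positivity
      · intro k _
        field_simp
    refine h3.trans (mul_le_mul_of_nonneg_left (sum_le_sum fun k _ => ?_)
      (sum_nonneg fun k _ => by positivity))
    refine mul_le_mul_of_nonneg_left ?_ (by positivity)
    rw [div_le_div_iff₀ (by positivity) (by positivity)]
    have h4 : ((k.choose (k / 2)) ^ 2 * (k + 1) : ℝ) ≤ 4 ^ k := by exact_mod_cast middle_sq k
    calc ((k.choose (k / 2)) ^ 2 * (k + 1) : ℝ) ≤ 4 ^ k := h4
      _ = 2 ^ k * 2 ^ k := by rw [← mul_pow]; norm_num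
  have h3 : ∑ k ∈ range (n + 1), ((n.choose k : ℝ) * c ^ (n - k)) * 2 ^ k = (b : ℝ) ^ n := by
    rw [← hbc, add_comm c 2, add_pow]
    exact sum_congr rfl fun k _ => by ring
  have h4 : ∑ k ∈ range (n + 1), ((n.choose k : ℝ) * c ^ (n - k)) * (2 ^ k / (k + 1)) ≤
      (b : ℝ) ^ (n + 1) / (2 * (n + 1)) := by
    rw [le_div_iff₀ (by positivity)]
    have h5 : (b : ℝ) ^ (n + 1) = ∑ k ∈ range (n + 1 + 1),
        2 ^ k * c ^ (n + 1 - k) * ((n + 1).choose k : ℝ) := by
      rw [← hbc, add_comm c 2, add_pow]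
    rw [h5, sum_mul,
      sum_range_succ' (fun k => 2 ^ k * c ^ (n + 1 - k) * ((n + 1).choose k : ℝ)) (n + 1)]
    have h6 : ∀ k ∈ range (n + 1), ((n.choose k : ℝ) * c ^ (n - k)) * (2 ^ k / (k + 1)) *
        (2 * (n + 1)) = 2 ^ (k + 1) * c ^ (n + 1 - (k + 1)) * ((n + 1).choose (k + 1) : ℝ) := by
      intro k _
      have h7 : ((n + 1 : ℕ) : ℝ) * (n.choose k : ℝ) = ((n + 1).choose (k + 1) : ℝ) * ((k + 1 : ℕ) : ℝ) := by
        exact_mod_cast Nat.add_one_mul_choose_eq n k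
      push_cast at h7
      have h8 : (k : ℝ) + 1 ≠ 0 := by positivity
      rw [show n + 1 - (k + 1) = n - k by omega, pow_succ]
      field_simp
      linear_combination (c ^ (n - k)) * h7
    rw [sum_congr rfl h6]
    have h7 : (0 : ℝ) ≤ 2 ^ 0 * c ^ (n + 1 - 0) * ((n + 1).choose 0 : ℝ) := by positivity
    linarith
  have h5 : (cnt l n z : ℝ) ^ 2 ≤ (∑ k ∈ range (n + 1), ((n.choose k : ℝ) * c ^ (n - k)) *
      (k.choose (k / 2) : ℝ)) ^ 2 := pow_le_pow_left₀ (Nat.cast_nonneg _) h1 2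
  refine h5.trans (h2.trans ?_)
  rw [h3]
  calc (b : ℝ) ^ n * _ ≤ (b : ℝ) ^ n * ((b : ℝ) ^ (n + 1) / (2 * (n + 1))) :=
        mul_le_mul_of_nonneg_left h4 (by positivity)
    _ = b / (2 * (n + 1)) * ((b : ℝ) ^ n) ^ 2 := by
        rw [pow_succ]
        ring

variable {Γ : Type*} [Group Γ] {ρ : Γ →* Matrix (Fin b) (Fin b) ℂ} {N : Subgroup Γ}

/-- The vectors of `V^(⊗ n) ⊗ W` which are fixed by `N` have dimension at most
`(b / (2 (n + 1)))^(1/2) b^n dim W`, for all `n` and all representations `W`. -/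
def Thin (ρ : Γ →* Matrix (Fin b) (Fin b) ℂ) (N : Subgroup Γ) : Prop :=
  ∀ (n : ℕ) (κ : Type) [Fintype κ] [DecidableEq κ] (σ : Γ →* Matrix κ κ ℂ),
    (Module.finrank ℂ (fixw ρ N n σ) : ℝ) ≤
      Real.sqrt (b / (2 * (n + 1))) * ((b : ℝ) ^ n * Fintype.card κ)

/-- **The explicit dichotomy.** -/
theorem thin_or (hb : 0 < b) [N.Normal] (hρ : Irr ρ Set.univ) : (Q1 ρ N).Finite ∨ Thin ρ N := by
  by_cases h : ∃ M, Bdd ρ N M
  · obtain ⟨M, h⟩ := h
    exact Or.inl (finite_of_bdd hb hρ h)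
  · right
    push Not at h
    intro n κ _ _ σ
    have h' := h (n + 1)
    rw [Bdd] at h'
    push Not at h'
    obtain ⟨g, hg, l, hl, i, j, h'⟩ := h'
    have hij : i ≠ j := by
      rintro rfl
      exact h' 1 le_rfl (by omega) (by rw [div_self (roots_ne hl i), one_pow])
    have h1 : ∀ z, (cnt l n z : ℝ) ≤ Real.sqrt (b / (2 * (n + 1))) * (b : ℝ) ^ n := by
      intro z
      have h2 := cnt_sq_le (roots_ne hl) hij (fun k h3 h4 => h' k h3 (by omega)) z (n := n)
      have h3 := Real.sqrt_le_sqrt h2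
      rwa [Real.sqrt_sq (Nat.cast_nonneg _), Real.sqrt_mul (by positivity),
        Real.sqrt_sq (by positivity)] at h3
    have h2 := finrank_fixw_le hg hl σ n h1
    rw [mul_assoc] at h2
    exact h2

theorem Thin.sparse (h : Thin ρ N) : Sparse ρ N := by
  intro ε hε
  obtain ⟨n₀, hn₀⟩ := exists_nat_gt ((b : ℝ) / ε ^ 2)
  refine ⟨n₀, fun n hn κ _ _ σ => (h n κ σ).trans (mul_le_mul_of_nonneg_right ?_ (by positivity))⟩
  rw [Real.sqrt_le_left hε.le]
  have h1 : (n₀ : ℝ) ≤ n := by exact_mod_cast hn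
  have h2 : (b : ℝ) / ε ^ 2 ≤ n := hn₀.le.trans h1
  rw [div_le_iff₀ (by positivity)] at h2
  rw [div_le_iff₀ (by positivity)]
  have h3 : 0 < ε ^ 2 := by positivity
  nlinarith

/-- **The explicit law.** -/
theorem scalar_or_thin (hb : 0 < b) [N.Normal] (hρ : LieIrr ρ) :
    (∀ g ∈ N, ∃ c : ℂ, ρ g = c • 1) ∨ Thin ρ N := by
  rcases thin_or hb (N := N) hρ.irr with h | h
  · left
    obtain ⟨H, hH, hc⟩ := exists_comm hb h
    intro g hg
    exact scalar_of_comm hb (hρ H hH) fun γ hγ => hc γ hγ g hg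
  · exact Or.inr h

theorem scalar_iff_thin (hb : 0 < b) [N.Normal] (hρ : LieIrr ρ) :
    (∀ g ∈ N, ∃ c : ℂ, ρ g = c • 1) ↔ ¬ Thin ρ N :=
  ⟨fun h ht => not_sparse_of_scalar hb h ht.sparse, (scalar_or_thin hb hρ).resolve_right⟩

theorem sparse_iff_thin (hb : 0 < b) [N.Normal] (hρ : LieIrr ρ) : Sparse ρ N ↔ Thin ρ N :=
  ⟨fun h => (scalar_or_thin hb hρ).resolve_left fun h' => not_sparse_of_scalar hb h' h,
    fun h => h.sparse⟩

end Run7.h199.ZO
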