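import Pool.Agent.Run7.h199.ZO.Eff

/-!
# The explicit law: criteria with a single tensor power
-/

set_option autoImplicit false
set_option linter.unusedSectionVars false

open Finset Matrix Filter Topology

namespace Run7.h199.ZO

variable {b : ℕ} {Γ : Type*} [Group Γ] {ρ : Γ →* Matrix (Fin b) (Fin b) ℂ} {N : Subgroup Γ}

theorem Thin.share_le (hb : 0 < b) (h : Thin ρ N) (n : ℕ) :
    share ρ N n ≤ Real.sqrt (b / (2 * (n + 1))) := by
  have h3 := h n Unit (1 : Γ →* Matrix Unit Unit ℂ)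
  have h4 : (Module.finrank ℂ (fix ρ N n) : ℝ) ≤
      Module.finrank ℂ (fixw ρ N n (1 : Γ →* Matrix Unit Unit ℂ)) := by
    exact_mod_cast finrank_fix_le_fixw n
  have hbn : (0 : ℝ) < (b : ℝ) ^ n := by positivity
  rw [share, div_le_iff₀ hbn]
  rw [Fintype.card_unit, Nat.cast_one, mul_one] at h3
  exact h4.trans h3

/-- The alternative for all irreducible representations. -/
theorem cover_or_thin (hb : 0 < b) [N.Normal] (hN : ∀ H : Subgroup Γ, H.FiniteIndex → N ≤ H)
    (hρ : Irr ρ Set.univ) :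
    ((∃ F : Set (Matrix (Fin b) (Fin b) ℂ), F.Finite ∧ ∀ g ∈ N, ∃ x ∈ F, ∃ c : ℂ, ρ g = c • x) ∧
      ∃ H : Subgroup Γ, H.FiniteIndex ∧ ∀ W : Submodule ℂ (Fin b → ℂ),
        (∀ γ ∈ H, ∀ v ∈ W, ρ γ *ᵥ v ∈ W) →
        (∀ W' ≤ W, (∀ γ ∈ H, ∀ v ∈ W', ρ γ *ᵥ v ∈ W') → W' = ⊥ ∨ W' = W) →
        ∀ g ∈ N, ∃ c : ℂ, ∀ v ∈ W, ρ g *ᵥ v = c • v) ∨ Thin ρ N := by
  rcases thin_or hb (N := N) hρ with h | h
  · left
    refine ⟨⟨Q1 ρ N, h, fun g hg => ?_⟩, ?_⟩
    · obtain ⟨c, hc, hx⟩ := exists_scale (ρ := ρ) hb hg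
      exact ⟨_, hx, c⁻¹, by rw [smul_smul, inv_mul_cancel₀ hc, one_smul]⟩
    · obtain ⟨H, hH, hc⟩ := exists_comm hb h
      refine ⟨H, hH, fun W hW hWm g hg => ?_⟩
      by_cases h0 : W = ⊥
      · refine ⟨1, fun v hv => ?_⟩
        rw [h0, Submodule.mem_bot] at hv
        rw [hv, Matrix.mulVec_zero, smul_zero]
      · have hs : ∀ v ∈ W, Matrix.toLin' (ρ g) v ∈ W := fun v hv => by
          rw [Matrix.toLin'_apply]
          exact hW g (hN H hH hg) v hv
        have : Nontrivial W := Submodule.nontrivial_iff_ne_bot.2 h0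
        obtain ⟨c, hc'⟩ := Module.End.exists_eigenvalue ((Matrix.toLin' (ρ g)).restrict hs)
        obtain ⟨v, hv, hv0⟩ := hc'.exists_hasEigenvector
        rw [Module.End.mem_eigenspace_iff] at hv
        have hv' : ρ g *ᵥ (v : Fin b → ℂ) = c • (v : Fin b → ℂ) := by
          have h1 := congrArg Subtype.val hv
          rw [← Matrix.toLin'_apply]
          exact h1
        refine ⟨c, ?_⟩
        let W' : Submodule ℂ (Fin b → ℂ) := W ⊓ Module.End.eigenspace (Matrix.toLin' (ρ g)) c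
        have h2 : W' = ⊥ ∨ W' = W := by
          apply hWm W' inf_le_left
          rintro γ hγ w ⟨hw1, hw2⟩
          refine ⟨hW γ hγ w hw1, ?_⟩
          have hw3 : ρ g *ᵥ w = c • w := by
            have h1 := Module.End.mem_eigenspace_iff.1 hw2
            rwa [Matrix.toLin'_apply] at h1
          refine Module.End.mem_eigenspace_iff.2 ?_
          rw [Matrix.toLin'_apply, Matrix.mulVec_mulVec, ← hc γ hγ g hg, ← Matrix.mulVec_mulVec,
            hw3, Matrix.mulVec_smul]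
        rcases h2 with h2 | h2
        · exfalso
          apply hv0
          have h3 : (v : Fin b → ℂ) ∈ W' := ⟨v.2, Module.End.mem_eigenspace_iff.2 (by
            rw [Matrix.toLin'_apply, hv'])⟩
          rw [h2, Submodule.mem_bot] at h3
          exact Subtype.ext h3
        · intro w hw
          rw [← h2] at hw
          have h3 := Module.End.mem_eigenspace_iff.1 hw.2
          rwa [Matrix.toLin'_apply] at h3
  · exact Or.inr h


lemma sqrt_lt_one (hb : 0 < b) : Real.sqrt (b / (2 * ((b : ℕ) + 1))) < 1 := by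
  rw [Real.sqrt_lt' one_pos, one_pow, div_lt_one (by positivity)]
  have : (0 : ℝ) < b := by exact_mod_cast hb
  linarith

/-- **The criterion with one tensor power and the next.** -/
theorem trivial_iff_thin (hb : 0 < b) [N.Normal] (hρ : LieIrr ρ) :
    (∀ g ∈ N, ρ g = 1) ↔
      ∃ n : ℕ, Real.sqrt (b / (2 * (n + 1))) < share ρ N n ∧ 0 < share ρ N (n + 1) := by
  constructor
  · intro h
    have h1 : ∀ n, share ρ N n = 1 := fun n => share_eq_one hb (fix_eq_top fun g hg =>
      ⟨1, by rw [h g hg, one_smul], one_pow n⟩)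
    refine ⟨b, ?_, ?_⟩
    · rw [h1]
      exact sqrt_lt_one hb
    · rw [h1]
      exact one_pos
  · rintro ⟨n, h2, h3⟩
    rcases scalar_or_thin hb (N := N) hρ with h1 | h1
    · intro g hg
      obtain ⟨c, hc⟩ := h1 g hg
      have h4 : c ^ n = 1 := pow_of_fix (fun h5 => by
        rw [share_eq_zero h5] at h2
        exact absurd h2 (not_lt.2 (Real.sqrt_nonneg _))) hg hc
      have h5 : c ^ (n + 1) = 1 := pow_of_fix (fun h5 => by
        rw [share_eq_zero h5] at h3
        exact lt_irrefl _ h3) hg hc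
      rw [pow_succ, h4, one_mul] at h5
      rw [hc, h5, one_smul]
    · exact absurd h2 (not_lt.2 (h1.share_le hb n))

/-- **The criterion with one tensor power and one of exponent prime to the dimension.** -/
theorem trivial_iff_thin' (hb : 0 < b) [N.Normal] (hρ : LieIrr ρ) {h : ℕ}
    (hdet : ∀ g ∈ N, (ρ g).det ^ h = 1) :
    (∀ g ∈ N, ρ g = 1) ↔ (∃ n : ℕ, Real.sqrt (b / (2 * (n + 1))) < share ρ N n) ∧
      ∃ m : ℕ, m.Coprime (b * h) ∧ 0 < share ρ N m := by
  constructor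
  · intro h'
    have h1 : ∀ n, share ρ N n = 1 := fun n => share_eq_one hb (fix_eq_top fun g hg =>
      ⟨1, by rw [h' g hg, one_smul], one_pow n⟩)
    refine ⟨⟨b, ?_⟩, 1, Nat.coprime_one_left _, ?_⟩
    · rw [h1]
      exact sqrt_lt_one hb
    · rw [h1]
      exact one_pos
  · rintro ⟨⟨n, h1⟩, m, hm, h2⟩ g hg
    rcases scalar_or_thin hb (N := N) hρ with h3 | h3
    · obtain ⟨c, hc⟩ := h3 g hg
      have h4 : c ^ m = 1 := pow_of_fix (fun h5 => by
        rw [share_eq_zero h5] at h2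
        exact lt_irrefl _ h2) hg hc
      have h5 : c ^ (b * h) = 1 := by
        have h6 := hdet g hg
        rwa [hc, Matrix.det_smul, Matrix.det_one, mul_one, Fintype.card_fin, ← pow_mul] at h6
      have h6 : c ^ (m.gcd (b * h)) = 1 := pow_gcd_eq_one.2 ⟨h4, h5⟩
      rw [hm, pow_one] at h6
      rw [hc, h6, one_smul]
    · exact absurd h1 (not_lt.2 (h3.share_le hb n))

/-- **All or little.** -/
theorem all_or_thin (hb : 0 < b) [N.Normal] (hρ : LieIrr ρ) {h : ℕ}
    (hdet : ∀ g ∈ N, (ρ g).det ^ h = 1) :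
    ((∀ n, fix ρ N n = ⊤ ∨ fix ρ N n = ⊥) ∧ ∀ n, b * h ∣ n → fix ρ N n = ⊤) ∨ Thin ρ N := by
  rcases all_or_nothing' hb hρ hdet with h1 | h1
  · exact Or.inl h1
  · exact Or.inr ((sparse_iff_thin hb hρ).1 h1)

end Run7.h199.ZO
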