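import Pool.Agent.Run7.h199.ZO.Count
import Pool.Agent.Helper605.TraceR

/-!
# The fixed space of a tensor power of a matrix
-/

set_option autoImplicit false
set_option linter.deprecated false
set_option linter.unusedSimpArgs false

open Finset Polynomial Matrix

namespace Run7.h199.ZO

/-- The `n`-th tensor power of the matrix `g`. -/
def tp {b : ℕ} (g : Matrix (Fin b) (Fin b) ℂ) (n : ℕ) :
    Matrix (Fin n → Fin b) (Fin n → Fin b) ℂ := Matrix.of fun x y => ∏ i, g (x i) (y i)

variable {b : ℕ}

lemma tp_mul (g h : Matrix (Fin b) (Fin b) ℂ) (n : ℕ) : tp (g * h) n = tp g n * tp h n := by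
  ext x y
  simp only [tp, Matrix.of_apply, Matrix.mul_apply]
  rw [Finset.prod_univ_sum, Fintype.piFinset_univ]
  refine sum_congr rfl fun z _ => ?_
  rw [prod_mul_distrib]

lemma tp_one (n : ℕ) : tp (1 : Matrix (Fin b) (Fin b) ℂ) n = 1 := by
  ext x y
  simp only [tp, Matrix.of_apply]
  by_cases h : x = y
  · subst h
    simp
  · rw [Matrix.one_apply_ne h]
    obtain ⟨i, hi⟩ := Function.ne_iff.1 h
    exact prod_eq_zero (mem_univ i) (Matrix.one_apply_ne hi)

lemma tp_pow (g : Matrix (Fin b) (Fin b) ℂ) (n k : ℕ) : tp (g ^ k) n = tp g n ^ k := by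
  induction k with
  | zero => rw [pow_zero, pow_zero, tp_one]
  | succ k ih => rw [pow_succ, pow_succ, tp_mul, ih]

lemma trace_tp (g : Matrix (Fin b) (Fin b) ℂ) (n : ℕ) : (tp g n).trace = g.trace ^ n := by
  simp only [tp, Matrix.trace, Matrix.diag_apply, Matrix.of_apply]
  have h1 := Finset.prod_univ_sum (ι := Fin n) (fun _ => (univ : Finset (Fin b)))
    (fun _ j => g j j)
  rw [Fintype.piFinset_univ, prod_const, card_univ, Fintype.card_fin] at h1
  exact h1.symm

/-- The trace of a polynomial in a matrix. -/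
lemma trace_aeval {n : ℕ} (A : Matrix (Fin n) (Fin n) ℂ) (f : ℂ[X]) :
    (aeval A f).trace = (A.charpoly.roots.map fun z => f.eval z).sum := by
  induction f using Polynomial.induction_on' with
  | add p q hp hq =>
    rw [map_add, Matrix.trace_add, hp, hq, ← Multiset.sum_map_add]
    simp only [eval_add]
  | monomial k a =>
    rw [aeval_monomial, ← Algebra.smul_def, Matrix.trace_smul,
      Pool.Agent.Helper605.trace_pow_roots, smul_eq_mul, ← Multiset.sum_map_mul_left]
    simp only [eval_monomial]

lemma trace_aeval' {ι : Type*} [Fintype ι] [DecidableEq ι] (A : Matrix ι ι ℂ) (f : ℂ[X]) :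
    (aeval A f).trace = (A.charpoly.roots.map fun z => f.eval z).sum := by
  have e := Fintype.equivFin ι
  have h1 := trace_aeval (Matrix.reindexAlgEquiv ℂ ℂ e A) f
  rw [Matrix.reindexAlgEquiv_apply, Matrix.charpoly_reindex, ← Matrix.reindexAlgEquiv_apply ℂ ℂ,
    aeval_algEquiv] at h1
  rw [← h1]
  simp only [AlgHom.coe_comp, AlgHom.coe_coe, Function.comp_apply, Matrix.reindexAlgEquiv_apply]
  rw [Matrix.trace, Matrix.trace]
  simp only [Matrix.reindex_apply, Matrix.diag_apply, Matrix.submatrix_apply]
  exact (e.symm.sum_comp fun i => (aeval A f) i i).symm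

/-- The roots of the characteristic polynomial, as a function. -/
lemma exists_roots (g : Matrix (Fin b) (Fin b) ℂ) :
    ∃ l : Fin b → ℂ, g.charpoly.roots = univ.val.map l := by
  have h1 : g.charpoly.roots.card = b := by
    rw [IsAlgClosed.card_roots_eq_natDegree, Matrix.charpoly_natDegree_eq_dim, Fintype.card_fin]
  have h2 : g.charpoly.roots.toList.length = b := by rw [Multiset.length_toList, h1]
  refine ⟨fun i => g.charpoly.roots.toList.get (Fin.cast h2.symm i), ?_⟩
  rw [Fin.univ_val_map]
  conv_lhs => rw [← Multiset.coe_toList g.charpoly.roots]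
  congr 1
  apply List.ext_get
  · simp [h2]
  · intro n h3 h4
    simp

lemma trace_pow_tp {g : Matrix (Fin b) (Fin b) ℂ} {l : Fin b → ℂ}
    (hl : g.charpoly.roots = univ.val.map l) (n k : ℕ) :
    (tp g n ^ k).trace = ∑ x : Fin n → Fin b, (∏ i, l (x i)) ^ k := by
  rw [← tp_pow, trace_tp, Pool.Agent.Helper605.trace_pow_roots, hl, Multiset.map_map]
  have h1 := Finset.prod_univ_sum (ι := Fin n) (fun _ => (univ : Finset (Fin b)))
    (fun _ j => l j ^ k)
  rw [Fintype.piFinset_univ, prod_const, card_univ, Fintype.card_fin] at h1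
  refine h1.trans (sum_congr rfl fun x _ => ?_)
  rw [← prod_pow]

/-- The multiplicity of `1`. -/
theorem count_eq {g : Matrix (Fin b) (Fin b) ℂ} {l : Fin b → ℂ}
    (hl : g.charpoly.roots = univ.val.map l) (n : ℕ) :
    (tp g n).charpoly.rootMultiplicity 1 = cnt l n 1 := by
  classical
  set S : Finset ℂ := ((tp g n).charpoly.roots.toFinset ∪
    univ.image fun x : Fin n → Fin b => ∏ i, l (x i)).erase 1 with hS
  set f : ℂ[X] := ∏ z ∈ S, (C (1 - z)⁻¹ * (X - C z)) with hf
  have f1 : f.eval 1 = 1 := by
    rw [hf, eval_prod]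
    refine prod_eq_one fun z hz => ?_
    have h1 : z ≠ 1 := ne_of_mem_erase hz
    rw [eval_mul, eval_C, eval_sub, eval_X, eval_C]
    exact inv_mul_cancel₀ (sub_ne_zero.2 h1.symm)
  have f0 : ∀ z, z ∈ ((tp g n).charpoly.roots.toFinset ∪
      univ.image fun x : Fin n → Fin b => ∏ i, l (x i)) → f.eval z = if z = 1 then 1 else 0 := by
    intro z hz
    split_ifs with h
    · rw [h, f1]
    · rw [hf, eval_prod]
      refine prod_eq_zero (mem_erase.2 ⟨h, hz⟩) ?_
      simp
  have h1 : (aeval (tp g n) f).trace = ((tp g n).charpoly.rootMultiplicity 1 : ℂ) := by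
    rw [trace_aeval']
    have h2 : ((tp g n).charpoly.roots.map fun z => f.eval z) =
        ((tp g n).charpoly.roots.map fun z => if z = 1 then 1 else 0) := by
      refine Multiset.map_congr rfl fun z hz => f0 z ?_
      exact mem_union_left _ (Multiset.mem_toFinset.2 hz)
    rw [h2, ← count_roots, Multiset.count_eq_card_filter_eq]
    have h3 : ∀ m : Multiset ℂ, (m.map fun z => if z = 1 then (1 : ℂ) else 0).sum =
        ((Multiset.filter (Eq 1) m).card : ℂ) := by
      intro m
      induction m using Multiset.induction_on with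
      | empty => simp
      | cons a m ih =>
        rw [Multiset.map_cons, Multiset.sum_cons, ih]
        by_cases h : a = 1
        · subst h
          rw [if_pos rfl, Multiset.filter_cons_of_pos _ rfl, Multiset.card_cons]
          push_cast
          ring
        · rw [if_neg h, Multiset.filter_cons_of_neg _ (fun h' => h h'.symm), zero_add]
    exact h3 _
  have h2 : (aeval (tp g n) f).trace = (cnt l n 1 : ℂ) := by
    have h3 : ∀ q : ℂ[X], (aeval (tp g n) q).trace =
        ∑ x : Fin n → Fin b, q.eval (∏ i, l (x i)) := by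
      intro q
      induction q using Polynomial.induction_on' with
      | add p q hp hq =>
        rw [map_add, Matrix.trace_add, hp, hq, ← sum_add_distrib]
        simp only [eval_add]
      | monomial k a =>
        rw [aeval_monomial, ← Algebra.smul_def, Matrix.trace_smul, trace_pow_tp hl, smul_eq_mul,
          mul_sum]
        simp only [eval_monomial]
    rw [h3, cnt]
    push_cast
    refine sum_congr rfl fun x _ => ?_
    rw [f0 _ (mem_union_right _ (mem_image_of_mem _ (mem_univ x)))]
  rw [h1] at h2
  exact_mod_cast h2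

/-- **The fixed space of a tensor power.** -/
theorem finrank_fix_le {g : Matrix (Fin b) (Fin b) ℂ} {l : Fin b → ℂ}
    (hl : g.charpoly.roots = univ.val.map l) (n : ℕ)
    (W : Submodule ℂ ((Fin n → Fin b) → ℂ)) (hW : ∀ v ∈ W, tp g n *ᵥ v = v) :
    Module.finrank ℂ W ≤ cnt l n 1 := by
  rw [← count_eq hl n]
  have h1 : W ≤ Module.End.eigenspace (Matrix.toLin' (tp g n)) 1 := by
    intro v hv
    rw [Module.End.mem_eigenspace_iff]
    rw [Matrix.toLin'_apply, hW v hv, one_smul]
  have h2 := LinearMap.finrank_eigenspace_le (Matrix.toLin' (tp g n)) 1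
  rw [Matrix.charpoly_toLin'] at h2
  exact (Submodule.finrank_mono h1).trans h2

end Run7.h199.ZO
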