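import Pool.Agent.Run7.h199.ZO.Burn

/-!
# The zero-one law
-/

set_option autoImplicit false

open Finset Polynomial Matrix Filter Topology

namespace Run7.h199.ZO

variable {b : ℕ} {Γ : Type*} [Group Γ]

/-- The vectors of the `n`-th tensor power of `ℂ^b` which are fixed by `N`. -/
def fix (ρ : Γ →* Matrix (Fin b) (Fin b) ℂ) (N : Subgroup Γ) (n : ℕ) :
    Submodule ℂ ((Fin n → Fin b) → ℂ) where
  carrier := {f | ∀ g ∈ N, tp (ρ g) n *ᵥ f = f}
  add_mem' := fun {v w} hv hw g hg => by rw [Matrix.mulVec_add, hv g hg, hw g hg]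
  zero_mem' := fun g _ => Matrix.mulVec_zero _
  smul_mem' := fun c v hv g hg => by rw [Matrix.mulVec_smul, hv g hg]

/-- The share of the fixed vectors. -/
noncomputable def share (ρ : Γ →* Matrix (Fin b) (Fin b) ℂ) (N : Subgroup Γ) (n : ℕ) : ℝ :=
  (Module.finrank ℂ (fix ρ N n) : ℝ) / (b : ℝ) ^ n

/-- The matrices of determinant one which are proportional to the matrix of an element of `N`. -/
def Q1 (ρ : Γ →* Matrix (Fin b) (Fin b) ℂ) (N : Subgroup Γ) : Set (Matrix (Fin b) (Fin b) ℂ) :=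
  {x | x.det = 1 ∧ ∃ g ∈ N, ∃ c : ℂ, x = c • ρ g}

variable {ρ : Γ →* Matrix (Fin b) (Fin b) ℂ} {N : Subgroup Γ}

lemma rinv (ρ : Γ →* Matrix (Fin b) (Fin b) ℂ) (γ : Γ) : ρ γ * ρ γ⁻¹ = 1 := by
  rw [← map_mul, mul_inv_cancel, map_one]

lemma rinv' (ρ : Γ →* Matrix (Fin b) (Fin b) ℂ) (γ : Γ) : ρ γ⁻¹ * ρ γ = 1 := by
  rw [← map_mul, inv_mul_cancel, map_one]

lemma det_ne (ρ : Γ →* Matrix (Fin b) (Fin b) ℂ) (γ : Γ) : (ρ γ).det ≠ 0 := by
  have h1 := congrArg Matrix.det (rinv ρ γ)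
  rw [Matrix.det_mul, Matrix.det_one] at h1
  exact left_ne_zero_of_mul_eq_one h1

lemma Q1_one : (1 : Matrix (Fin b) (Fin b) ℂ) ∈ Q1 ρ N :=
  ⟨Matrix.det_one, 1, N.one_mem, 1, by rw [map_one, one_smul]⟩

lemma Q1_mul {x y : Matrix (Fin b) (Fin b) ℂ} (hx : x ∈ Q1 ρ N) (hy : y ∈ Q1 ρ N) :
    x * y ∈ Q1 ρ N := by
  obtain ⟨hx1, g, hg, c, rfl⟩ := hx
  obtain ⟨hy1, g', hg', c', rfl⟩ := hy
  refine ⟨by rw [Matrix.det_mul, hx1, hy1, mul_one], g * g', N.mul_mem hg hg', c * c', ?_⟩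
  rw [Matrix.smul_mul, Matrix.mul_smul, smul_smul, map_mul]

lemma Q1_conj [hN : N.Normal] (γ : Γ) {x : Matrix (Fin b) (Fin b) ℂ} (hx : x ∈ Q1 ρ N) :
    ρ γ * x * ρ γ⁻¹ ∈ Q1 ρ N := by
  obtain ⟨hx1, g, hg, c, rfl⟩ := hx
  refine ⟨?_, γ * g * γ⁻¹, hN.conj_mem g hg γ, c, ?_⟩
  · have h1 := congrArg Matrix.det (rinv ρ γ)
    rw [Matrix.det_mul, Matrix.det_one] at h1
    rw [Matrix.det_mul, Matrix.det_mul, hx1, mul_one, h1]
  · rw [map_mul, map_mul, Matrix.mul_smul, Matrix.smul_mul]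

/-- All ratios of eigenvalues have order at most `M`. -/
def Bdd (ρ : Γ →* Matrix (Fin b) (Fin b) ℂ) (N : Subgroup Γ) (M : ℕ) : Prop :=
  ∀ g ∈ N, ∀ l : Fin b → ℂ, (ρ g).charpoly.roots = univ.val.map l →
    ∀ i j, ∃ k, 1 ≤ k ∧ k ≤ M ∧ (l i / l j) ^ k = 1

lemma prod_roots {x : Matrix (Fin b) (Fin b) ℂ} {l : Fin b → ℂ}
    (hl : x.charpoly.roots = univ.val.map l) : ∏ i, l i = x.det := by
  rw [Matrix.det_eq_prod_roots_charpoly, hl]
  rfl

lemma sum_roots {x : Matrix (Fin b) (Fin b) ℂ} {l : Fin b → ℂ}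
    (hl : x.charpoly.roots = univ.val.map l) : ∑ i, l i = x.trace := by
  rw [Matrix.trace_eq_sum_roots_charpoly, hl]
  rfl

lemma roots_ne {g : Γ} {l : Fin b → ℂ} (hl : (ρ g).charpoly.roots = univ.val.map l) (i : Fin b) :
    l i ≠ 0 := by
  have h1 := prod_roots hl
  intro h
  exact det_ne ρ g (by rw [← h1]; exact prod_eq_zero (mem_univ i) h)

lemma finite_of_bdd (hb : 0 < b) [N.Normal] (hρ : Irr ρ Set.univ) {M : ℕ} (h : Bdd ρ N M) :
    (Q1 ρ N).Finite := by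
  refine finite_of_traces (Q1 ρ N) hb ρ hρ Q1_one (fun x hx y hy => Q1_mul hx hy)
    (fun γ x hx => Q1_conj γ hx) ?_
  have hM : 0 < M.factorial * b := Nat.mul_pos (Nat.factorial_pos M) hb
  have hfin : {z : ℂ | z ^ (M.factorial * b) = 1}.Finite := by
    refine (((Polynomial.nthRoots (M.factorial * b) (1 : ℂ)).toFinset).finite_toSet).subset ?_
    intro z hz
    rw [mem_coe, Multiset.mem_toFinset, Polynomial.mem_nthRoots hM]
    exact hz
  have hfin2 := (Set.Finite.pi' (t := fun _ : Fin b => {z : ℂ | z ^ (M.factorial * b) = 1})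
    fun _ => hfin).image fun ζ => ∑ i, ζ i
  refine hfin2.subset ?_
  rintro _ ⟨x, ⟨hx1, g, hg, c, rfl⟩, rfl⟩
  obtain ⟨l, hl⟩ := exists_roots (ρ g)
  refine ⟨fun i => c * l i, fun i => ?_, ?_⟩
  · show (c * l i) ^ (M.factorial * b) = 1
    have hc : c ≠ 0 := by
      rintro rfl
      have : Nonempty (Fin b) := ⟨⟨0, hb⟩⟩
      rw [zero_smul, Matrix.det_zero] at hx1
      exact zero_ne_one hx1
    have h2 : ∀ j, (c * l i) ^ M.factorial = (c * l j) ^ M.factorial := by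
      intro j
      obtain ⟨k, hk1, hk2, hk⟩ := h g hg l hl i j
      obtain ⟨d, hd⟩ := Nat.dvd_factorial hk1 hk2
      have h3 : c * l i = (c * l j) * (l i / l j) := by
        have := roots_ne hl j
        field_simp
      rw [h3, mul_pow, hd, pow_mul (l i / l j), hk, one_pow, mul_one]
    rw [pow_mul]
    calc ((c * l i) ^ M.factorial) ^ b = ∏ j : Fin b, (c * l i) ^ M.factorial := by
          rw [prod_const, card_univ, Fintype.card_fin]
      _ = ∏ j : Fin b, (c * l j) ^ M.factorial := prod_congr rfl fun j _ => h2 j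
      _ = (c ^ b * ∏ j, l j) ^ M.factorial := by
          rw [prod_pow, prod_mul_distrib, prod_const, card_univ, Fintype.card_fin]
      _ = 1 := by
          rw [prod_roots hl]
          rw [Matrix.det_smul, Fintype.card_fin] at hx1
          rw [hx1, one_pow]
  · show ∑ i, c * l i = (c • ρ g).trace
    rw [← mul_sum, sum_roots hl, Matrix.trace_smul, smul_eq_mul]

lemma small_of_not_bdd (hb : 0 < b) {M : ℕ} (h : ¬ Bdd ρ N M) :
    ∃ n₀, ∀ n ≥ n₀, share ρ N n ≤ 2 / (M + 1) := by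
  rw [Bdd] at h
  push Not at h
  obtain ⟨g, hg, l, hl, i, j, h⟩ := h
  obtain ⟨n₀, h1⟩ := rare hb (roots_ne hl) i j M h
  refine ⟨n₀, fun n hn => ?_⟩
  have hbn : (0 : ℝ) < (b : ℝ) ^ n := by positivity
  rw [share, div_le_iff₀ hbn]
  refine le_trans ?_ (h1 n hn 1)
  exact_mod_cast finrank_fix_le hl n (fix ρ N n) fun v hv => hv g hg

/-- **The dichotomy.** -/
theorem dichotomy (hb : 0 < b) [N.Normal] (hρ : Irr ρ Set.univ) :
    (Q1 ρ N).Finite ∨ Tendsto (share ρ N) atTop (𝓝 0) := by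
  by_cases h : ∃ M, Bdd ρ N M
  · obtain ⟨M, h⟩ := h
    exact Or.inl (finite_of_bdd hb hρ h)
  · right
    push Not at h
    rw [Metric.tendsto_atTop]
    intro ε hε
    obtain ⟨M, hM⟩ := exists_nat_gt (2 / ε)
    obtain ⟨n₀, h1⟩ := small_of_not_bdd hb (h M)
    refine ⟨n₀, fun n hn => ?_⟩
    have h2 : (0 : ℝ) ≤ share ρ N n := by unfold share; positivity
    rw [Real.dist_eq, sub_zero, abs_of_nonneg h2]
    refine lt_of_le_of_lt (h1 n hn) ?_
    rw [div_lt_iff₀ hε] at hM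
    rw [div_lt_iff₀ (by positivity)]
    nlinarith

lemma exists_scale (hb : 0 < b) {g : Γ} (hg : g ∈ N) : ∃ c : ℂ, c ≠ 0 ∧ c • ρ g ∈ Q1 ρ N := by
  obtain ⟨c, hc⟩ := IsAlgClosed.exists_pow_nat_eq ((ρ g).det)⁻¹ hb
  have h1 : c ^ b * (ρ g).det = 1 := by rw [hc, inv_mul_cancel₀ (det_ne ρ g)]
  refine ⟨c, ?_, ?_, g, hg, c, rfl⟩
  · rintro rfl
    rw [zero_pow hb.ne', zero_mul] at h1
    exact zero_ne_one h1
  · rw [Matrix.det_smul, Fintype.card_fin, h1]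

/-- If `N` is finite modulo scalars then a subgroup of finite index commutes with `N`. -/
theorem exists_comm (hb : 0 < b) [N.Normal] (h : (Q1 ρ N).Finite) :
    ∃ H : Subgroup Γ, H.FiniteIndex ∧ ∀ γ ∈ H, ∀ g ∈ N, ρ γ * ρ g = ρ g * ρ γ := by
  have hfin : Finite (Q1 ρ N) := h
  let act : MulAction Γ (Q1 ρ N) :=
    { smul := fun γ x => ⟨ρ γ * x.1 * ρ γ⁻¹, Q1_conj γ x.2⟩
      one_smul := fun x => by
        apply Subtype.ext
        show ρ 1 * x.1 * ρ 1⁻¹ = x.1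
        rw [inv_one, map_one, Matrix.one_mul, Matrix.mul_one]
      mul_smul := fun γ δ x => by
        apply Subtype.ext
        show ρ (γ * δ) * x.1 * ρ (γ * δ)⁻¹ = ρ γ * (ρ δ * x.1 * ρ δ⁻¹) * ρ γ⁻¹
        rw [_root_.mul_inv_rev, map_mul, map_mul]
        simp only [Matrix.mul_assoc] }
  let φ : Γ →* Equiv.Perm (Q1 ρ N) := @MulAction.toPermHom Γ (Q1 ρ N) _ act
  refine ⟨φ.ker, inferInstance, fun γ hγ g hg => ?_⟩
  obtain ⟨c, hc, hx⟩ := exists_scale (ρ := ρ) hb hg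
  have h1 : φ γ = 1 := hγ
  have h2 : φ γ ⟨_, hx⟩ = ⟨_, hx⟩ := by rw [h1]; rfl
  have h3 : ρ γ * (c • ρ g) * ρ γ⁻¹ = c • ρ g := congrArg Subtype.val h2
  have h4 : c • (ρ γ * ρ g) = c • (ρ g * ρ γ) := by
    calc c • (ρ γ * ρ g) = ρ γ * (c • ρ g) * (ρ γ⁻¹ * ρ γ) := by
          rw [rinv', Matrix.mul_one, Matrix.mul_smul]
      _ = (ρ γ * (c • ρ g) * ρ γ⁻¹) * ρ γ := by rw [← Matrix.mul_assoc]
      _ = c • (ρ g * ρ γ) := by rw [h3, Matrix.smul_mul]
  exact smul_right_injective _ hc h4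

/-- Schur's lemma. -/
theorem scalar_of_comm (hb : 0 < b) {H : Set Γ} (hρ : Irr ρ H) {x : Matrix (Fin b) (Fin b) ℂ}
    (h : ∀ γ ∈ H, ρ γ * x = x * ρ γ) : ∃ c : ℂ, x = c • 1 := by
  have : Nonempty (Fin b) := ⟨⟨0, hb⟩⟩
  obtain ⟨c, hc⟩ := Module.End.exists_eigenvalue (Matrix.toLin' x)
  refine ⟨c, ?_⟩
  rcases hρ (Module.End.eigenspace (Matrix.toLin' x) c) (fun γ hγ v hv => by
    rw [Module.End.mem_eigenspace_iff, Matrix.toLin'_apply] at hv ⊢
    rw [Matrix.mulVec_mulVec, ← h γ hγ, ← Matrix.mulVec_mulVec, hv, Matrix.mulVec_smul]) with h1 | h1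
  · exact absurd h1 hc
  · apply Matrix.ext_of_mulVec_single
    intro i
    have h2 : Pi.single i (1 : ℂ) ∈ Module.End.eigenspace (Matrix.toLin' x) c := by
      rw [h1]; trivial
    rw [Module.End.mem_eigenspace_iff, Matrix.toLin'_apply] at h2
    rw [h2, Matrix.smul_mulVec, Matrix.one_mulVec]

lemma tp_smul (c : ℂ) (n : ℕ) : tp (c • (1 : Matrix (Fin b) (Fin b) ℂ)) n = c ^ n • 1 := by
  rw [← tp_one]
  ext x y
  simp only [tp, Matrix.of_apply, Matrix.smul_apply, smul_eq_mul]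
  rw [prod_mul_distrib, prod_const, card_univ, Fintype.card_fin]

/-- The representation is irreducible on every subgroup of finite index. -/
def LieIrr (ρ : Γ →* Matrix (Fin b) (Fin b) ℂ) : Prop := ∀ H : Subgroup Γ, H.FiniteIndex → Irr ρ H

lemma LieIrr.irr (h : LieIrr ρ) : Irr ρ Set.univ := by
  have h1 := h ⊤ inferInstance
  rwa [Subgroup.coe_top] at h1

theorem scalar_or (hb : 0 < b) [N.Normal] (hρ : LieIrr ρ) :
    (∀ g ∈ N, ∃ c : ℂ, ρ g = c • 1) ∨ Tendsto (share ρ N) atTop (𝓝 0) := by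
  rcases dichotomy hb (N := N) hρ.irr with h | h
  · left
    obtain ⟨H, hH, hc⟩ := exists_comm hb h
    intro g hg
    exact scalar_of_comm hb (hρ H hH) fun γ hγ => hc γ hγ g hg
  · exact Or.inr h

lemma pow_of_fix {n : ℕ} (h : fix ρ N n ≠ ⊥) {g : Γ} (hg : g ∈ N) {c : ℂ} (hc : ρ g = c • 1) :
    c ^ n = 1 := by
  obtain ⟨f, hf, hf0⟩ := (Submodule.ne_bot_iff _).1 h
  have h1 := hf g hg
  rw [hc, tp_smul, Matrix.smul_mulVec, Matrix.one_mulVec] at h1
  have h2 : (c ^ n - 1) • f = 0 := by rw [sub_smul, one_smul, h1, sub_self]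
  rcases smul_eq_zero.1 h2 with h3 | h3
  · exact sub_eq_zero.1 h3
  · exact absurd h3 hf0

lemma fix_eq_top {n : ℕ} (h : ∀ g ∈ N, ∃ c : ℂ, ρ g = c • 1 ∧ c ^ n = 1) : fix ρ N n = ⊤ := by
  rw [eq_top_iff]
  intro f _ g hg
  obtain ⟨c, hc, hcn⟩ := h g hg
  rw [hc, tp_smul, hcn, one_smul, Matrix.one_mulVec]

lemma share_eq_one (hb : 0 < b) {n : ℕ} (h : fix ρ N n = ⊤) : share ρ N n = 1 := by
  rw [share, h, finrank_top, Module.finrank_fintype_fun_eq_card, Fintype.card_fun, Fintype.card_fin,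
    Fintype.card_fin]
  push_cast
  exact div_self (by positivity)

lemma share_eq_zero {n : ℕ} (h : fix ρ N n = ⊥) : share ρ N n = 0 := by
  rw [share, h, finrank_bot]
  simp

/-- **The criterion.** -/
theorem trivial_iff (hb : 0 < b) [N.Normal] (hρ : LieIrr ρ) :
    (∀ g ∈ N, ρ g = 1) ↔
      ∃ ε : ℝ, 0 < ε ∧ ∃ᶠ n in atTop, ε ≤ share ρ N n ∧ 0 < share ρ N (n + 1) := by
  constructor
  · intro h
    have h1 : ∀ n, share ρ N n = 1 := fun n => share_eq_one hb (fix_eq_top fun g hg =>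
      ⟨1, by rw [h g hg, one_smul], one_pow n⟩)
    refine ⟨1, one_pos, Filter.Eventually.frequently (Filter.Eventually.of_forall fun n => ?_)⟩
    rw [h1, h1]
    exact ⟨le_rfl, one_pos⟩
  · rintro ⟨ε, hε, h⟩
    rcases scalar_or hb (N := N) hρ with h1 | h1
    · intro g hg
      obtain ⟨n, h2, h3⟩ := h.exists
      obtain ⟨c, hc⟩ := h1 g hg
      have h4 : c ^ n = 1 := pow_of_fix (fun h5 => by
        rw [share_eq_zero h5] at h2
        linarith) hg hc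
      have h5 : c ^ (n + 1) = 1 := pow_of_fix (fun h5 => by
        rw [share_eq_zero h5] at h3
        exact lt_irrefl _ h3) hg hc
      rw [pow_succ, h4, one_mul] at h5
      rw [hc, h5, one_smul]
    · exfalso
      have h2 := h1.eventually (gt_mem_nhds hε)
      obtain ⟨n, h3, h4⟩ := (h.and_eventually h2).exists
      linarith [h3.1]

/-- **All or nothing.** -/
theorem all_or_nothing (hb : 0 < b) [N.Normal] (hρ : LieIrr ρ) {h : ℕ}
    (hdet : ∀ g ∈ N, (ρ g).det ^ h = 1) :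
    ((∀ n, fix ρ N n = ⊤ ∨ fix ρ N n = ⊥) ∧ ∀ n, b * h ∣ n → fix ρ N n = ⊤) ∨
      Tendsto (share ρ N) atTop (𝓝 0) := by
  rcases scalar_or hb (N := N) hρ with h1 | h1
  · left
    refine ⟨fun n => ?_, ?_⟩
    · by_cases h2 : fix ρ N n = ⊥
      · exact Or.inr h2
      · left
        apply fix_eq_top
        intro g hg
        obtain ⟨c, hc⟩ := h1 g hg
        exact ⟨c, hc, pow_of_fix h2 hg hc⟩
    · rintro _ ⟨d, rfl⟩
      apply fix_eq_top
      intro g hg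
      obtain ⟨c, hc⟩ := h1 g hg
      refine ⟨c, hc, ?_⟩
      have h2 := hdet g hg
      rw [hc, Matrix.det_smul, Matrix.det_one, mul_one, Fintype.card_fin, ← pow_mul] at h2
      rw [pow_mul, h2, one_pow]
  · exact Or.inr h1

end Run7.h199.ZO
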