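import Pool.Agent.Run7.h199.ZO.Twist

/-!
# The one percent law
-/

set_option autoImplicit false
set_option linter.unusedSectionVars false

open Finset Polynomial Matrix Filter Topology

namespace Run7.h199.ZO

variable {b : ℕ} {Γ : Type*} [Group Γ] {ρ : Γ →* Matrix (Fin b) (Fin b) ℂ} {N : Subgroup Γ}

theorem scalar_or' (hb : 0 < b) [N.Normal] (hρ : LieIrr ρ) :
    (∀ g ∈ N, ∃ c : ℂ, ρ g = c • 1) ∨ Sparse ρ N := by
  rcases dichotomy' hb (N := N) hρ.irr with h | h
  · left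
    obtain ⟨H, hH, hc⟩ := exists_comm hb h
    intro g hg
    exact scalar_of_comm hb (hρ H hH) fun γ hγ => hc γ hγ g hg
  · exact Or.inr h

lemma finrank_fix_le_fixw (n : ℕ) :
    Module.finrank ℂ (fix ρ N n) ≤ Module.finrank ℂ (fixw ρ N n (1 : Γ →* Matrix Unit Unit ℂ)) := by
  let φ : ((Fin n → Fin b) → ℂ) →ₗ[ℂ] ((Fin n → Fin b) × Unit → ℂ) :=
    LinearMap.funLeft ℂ ℂ Prod.fst
  have h1 : Function.Injective φ := LinearMap.funLeft_injective_of_surjective ℂ ℂ _
    Prod.fst_surjective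
  have h2 : (fix ρ N n).map φ ≤ fixw ρ N n (1 : Γ →* Matrix Unit Unit ℂ) := by
    rintro _ ⟨f, hf, rfl⟩ g hg
    have h3 := hf g hg
    ext ⟨x, u⟩
    have h4 := congrFun h3 x
    rw [Matrix.mulVec, dotProduct, Fintype.sum_prod_type]
    rw [Matrix.mulVec, dotProduct] at h4
    refine Eq.trans ?_ h4
    refine sum_congr rfl fun y _ => ?_
    rw [Fintype.sum_unique]
    simp [tpw, tp, φ, LinearMap.funLeft_apply]
  have h3 := Submodule.finrank_mono h2
  rwa [← (Submodule.equivMapOfInjective φ h1 (fix ρ N n)).finrank_eq] at h3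

/-- In the sparse case the share tends to zero. -/
theorem Sparse.tendsto (hb : 0 < b) (h : Sparse ρ N) : Tendsto (share ρ N) atTop (𝓝 0) := by
  rw [Metric.tendsto_atTop]
  intro ε hε
  obtain ⟨n₀, h1⟩ := h (ε / 2) (by positivity)
  refine ⟨n₀, fun n hn => ?_⟩
  have h2 : (0 : ℝ) ≤ share ρ N n := by unfold share; positivity
  rw [Real.dist_eq, sub_zero, abs_of_nonneg h2]
  have h3 := h1 n hn Unit (1 : Γ →* Matrix Unit Unit ℂ)
  have h4 : (Module.finrank ℂ (fix ρ N n) : ℝ) ≤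
      Module.finrank ℂ (fixw ρ N n (1 : Γ →* Matrix Unit Unit ℂ)) := by
    exact_mod_cast finrank_fix_le_fixw n
  have hbn : (0 : ℝ) < (b : ℝ) ^ n := by positivity
  rw [share, div_lt_iff₀ hbn]
  rw [Fintype.card_unit, Nat.cast_one, mul_one] at h3
  nlinarith

/-- The dual of the `n`-th tensor power. -/
def dualPow (ρ : Γ →* Matrix (Fin b) (Fin b) ℂ) (n : ℕ) :
    Γ →* Matrix (Fin n → Fin b) (Fin n → Fin b) ℂ where
  toFun γ := (tp (ρ γ⁻¹) n)ᵀ
  map_one' := by rw [inv_one, map_one, tp_one, Matrix.transpose_one]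
  map_mul' γ δ := by rw [_root_.mul_inv_rev, map_mul, tp_mul, Matrix.transpose_mul]

theorem not_sparse_of_scalar (hb : 0 < b) (h : ∀ g ∈ N, ∃ c : ℂ, ρ g = c • 1) : ¬ Sparse ρ N := by
  intro hs
  obtain ⟨n, hn⟩ := hs (1 / 2) (by norm_num)
  have h1 := hn n le_rfl _ (dualPow ρ n)
  have h2 : fixw ρ N n (dualPow ρ n) = ⊤ := by
    rw [eq_top_iff]
    intro f _ g hg
    obtain ⟨c, hc⟩ := h g hg
    obtain ⟨c', hc'⟩ := h g⁻¹ (N.inv_mem hg)
    have h3 : c * c' = 1 := by
      have h4 := rinv ρ g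
      rw [hc, hc', Matrix.smul_mul, Matrix.mul_smul, Matrix.one_mul, smul_smul] at h4
      have h5 := congrArg (fun x => x ⟨0, hb⟩ ⟨0, hb⟩) h4
      simpa using h5
    have h4 : tpw (ρ g) n (dualPow ρ n g) = 1 := by
      change tpw (ρ g) n ((tp (ρ g⁻¹) n)ᵀ) = 1
      rw [tpw_eq, hc, hc', tp_smul, tp_smul, Matrix.transpose_smul, Matrix.transpose_one]
      rw [Matrix.kronecker, Matrix.smul_kronecker, Matrix.kronecker_smul]
      rw [show Matrix.kroneckerMap (· * ·) (1 : Matrix (Fin n → Fin b) (Fin n → Fin b) ℂ) 1 = 1 from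
        Matrix.one_kronecker_one]
      rw [smul_smul, ← mul_pow, h3, one_pow, one_smul]
    rw [h4, Matrix.one_mulVec]
  rw [h2, finrank_top, Module.finrank_fintype_fun_eq_card, Fintype.card_prod, Fintype.card_fun,
    Fintype.card_fin, Fintype.card_fin] at h1
  push_cast at h1
  have h3 : (0 : ℝ) < (b : ℝ) ^ n * (b : ℝ) ^ n := by positivity
  linarith

/-- The alternative for all irreducible representations. -/
theorem cover_or (hb : 0 < b) [N.Normal] (hN : ∀ H : Subgroup Γ, H.FiniteIndex → N ≤ H)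
    (hρ : Irr ρ Set.univ) :
    ((∃ F : Set (Matrix (Fin b) (Fin b) ℂ), F.Finite ∧ ∀ g ∈ N, ∃ x ∈ F, ∃ c : ℂ, ρ g = c • x) ∧
      ∃ H : Subgroup Γ, H.FiniteIndex ∧ ∀ W : Submodule ℂ (Fin b → ℂ),
        (∀ γ ∈ H, ∀ v ∈ W, ρ γ *ᵥ v ∈ W) →
        (∀ W' ≤ W, (∀ γ ∈ H, ∀ v ∈ W', ρ γ *ᵥ v ∈ W') → W' = ⊥ ∨ W' = W) →
        ∀ g ∈ N, ∃ c : ℂ, ∀ v ∈ W, ρ g *ᵥ v = c • v) ∨ Sparse ρ N := by
  rcases dichotomy' hb (N := N) hρ with h | h
  · left
    refine ⟨⟨Q1 ρ N, h, fun g hg => ?_⟩, ?_⟩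
    · obtain ⟨c, hc, hx⟩ := exists_scale (ρ := ρ) hb hg
      exact ⟨_, hx, c⁻¹, by rw [smul_smul, inv_mul_cancel₀ hc, one_smul]⟩
    · obtain ⟨H, hH, hc⟩ := exists_comm hb h
      refine ⟨H, hH, fun W hW hWm g hg => ?_⟩
      by_cases h0 : W = ⊥
      · refine ⟨1, fun v hv => ?_⟩
        rw [h0, Submodule.mem_bot] at hv
        rw [hv, Matrix.mulVec_zero, smul_zero]
      · have hs : ∀ v ∈ W, Matrix.toLin' (ρ g) v ∈ W := fun v hv => by
          rw [Matrix.toLin'_apply]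
          exact hW g (hN H hH hg) v hv
        have : Nontrivial W := Submodule.nontrivial_iff_ne_bot.2 h0
        obtain ⟨c, hc'⟩ := Module.End.exists_eigenvalue ((Matrix.toLin' (ρ g)).restrict hs)
        obtain ⟨v, hv, hv0⟩ := hc'.exists_hasEigenvector
        rw [Module.End.mem_eigenspace_iff] at hv
        have hv' : ρ g *ᵥ (v : Fin b → ℂ) = c • (v : Fin b → ℂ) := by
          have h1 := congrArg Subtype.val hv
          rw [← Matrix.toLin'_apply]
          exact h1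
        refine ⟨c, ?_⟩
        let W' : Submodule ℂ (Fin b → ℂ) := W ⊓ Module.End.eigenspace (Matrix.toLin' (ρ g)) c
        have h2 : W' = ⊥ ∨ W' = W := by
          apply hWm W' inf_le_left
          rintro γ hγ w ⟨hw1, hw2⟩
          refine ⟨hW γ hγ w hw1, ?_⟩
          have hw3 : ρ g *ᵥ w = c • w := by
            have h1 := Module.End.mem_eigenspace_iff.1 hw2
            rwa [Matrix.toLin'_apply] at h1
          refine Module.End.mem_eigenspace_iff.2 ?_
          rw [Matrix.toLin'_apply, Matrix.mulVec_mulVec, ← hc γ hγ g hg, ← Matrix.mulVec_mulVec,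
            hw3, Matrix.mulVec_smul]
        rcases h2 with h2 | h2
        · exfalso
          apply hv0
          have h3 : (v : Fin b → ℂ) ∈ W' := ⟨v.2, Module.End.mem_eigenspace_iff.2 (by
            rw [Matrix.toLin'_apply, hv'])⟩
          rw [h2, Submodule.mem_bot] at h3
          exact Subtype.ext h3
        · intro w hw
          rw [← h2] at hw
          have h3 := Module.End.mem_eigenspace_iff.1 hw.2
          rwa [Matrix.toLin'_apply] at h3
  · exact Or.inr h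

/-- **All or nothing.** -/
theorem all_or_nothing' (hb : 0 < b) [N.Normal] (hρ : LieIrr ρ) {h : ℕ}
    (hdet : ∀ g ∈ N, (ρ g).det ^ h = 1) :
    ((∀ n, fix ρ N n = ⊤ ∨ fix ρ N n = ⊥) ∧ ∀ n, b * h ∣ n → fix ρ N n = ⊤) ∨ Sparse ρ N := by
  rcases scalar_or' hb (N := N) hρ with h1 | h1
  · left
    refine ⟨fun n => ?_, ?_⟩
    · by_cases h2 : fix ρ N n = ⊥
      · exact Or.inr h2
      · left
        apply fix_eq_top
        intro g hg
        obtain ⟨c, hc⟩ := h1 g hg
        exact ⟨c, hc, pow_of_fix h2 hg hc⟩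
    · rintro _ ⟨d, rfl⟩
      apply fix_eq_top
      intro g hg
      obtain ⟨c, hc⟩ := h1 g hg
      refine ⟨c, hc, ?_⟩
      have h2 := hdet g hg
      rw [hc, Matrix.det_smul, Matrix.det_one, mul_one, Fintype.card_fin, ← pow_mul] at h2
      rw [pow_mul, h2, one_pow]
  · exact Or.inr h1

/-- **The criterion, with the determinant.** -/
theorem trivial_iff' (hb : 0 < b) [N.Normal] (hρ : LieIrr ρ) {h : ℕ}
    (hdet : ∀ g ∈ N, (ρ g).det ^ h = 1) :
    (∀ g ∈ N, ρ g = 1) ↔ (∃ ε : ℝ, 0 < ε ∧ ∃ᶠ n in atTop, ε ≤ share ρ N n) ∧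
      ∃ m : ℕ, m.Coprime (b * h) ∧ 0 < share ρ N m := by
  constructor
  · intro h'
    have h1 : ∀ n, share ρ N n = 1 := fun n => share_eq_one hb (fix_eq_top fun g hg =>
      ⟨1, by rw [h' g hg, one_smul], one_pow n⟩)
    refine ⟨⟨1, one_pos, Filter.Eventually.frequently (Filter.Eventually.of_forall fun n => ?_)⟩,
      1, Nat.coprime_one_left _, ?_⟩
    · exact (h1 n).ge
    · rw [h1]
      exact one_pos
  · rintro ⟨⟨ε, hε, h1⟩, m, hm, h2⟩ g hg
    rcases scalar_or' hb (N := N) hρ with h3 | h3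
    · obtain ⟨c, hc⟩ := h3 g hg
      have h4 : c ^ m = 1 := pow_of_fix (fun h5 => by
        rw [share_eq_zero h5] at h2
        exact lt_irrefl _ h2) hg hc
      have h5 : c ^ (b * h) = 1 := by
        have h6 := hdet g hg
        rwa [hc, Matrix.det_smul, Matrix.det_one, mul_one, Fintype.card_fin, ← pow_mul] at h6
      have h6 : c ^ (m.gcd (b * h)) = 1 := pow_gcd_eq_one.2 ⟨h4, h5⟩
      rw [hm, pow_one] at h6
      rw [hc, h6, one_smul]
    · exfalso
      have h4 := (h3.tendsto hb).eventually (gt_mem_nhds hε)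
      obtain ⟨n, h5, h6⟩ := (h1.and_eventually h4).exists
      linarith

end Run7.h199.ZO
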