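import Pool.Agent.Run7.h199.ZO.Law

/-!
# Twists by arbitrary representations
-/

set_option autoImplicit false
set_option linter.unusedSimpArgs false
set_option linter.unusedSectionVars false

open Finset Polynomial Matrix Filter Topology

namespace Run7.h199.ZO

variable {b : ℕ} {κ : Type*} [Fintype κ] [DecidableEq κ]

/-- The tensor product of the `n`-th tensor power of the matrix `g` with the matrix `s`. -/
def tpw (g : Matrix (Fin b) (Fin b) ℂ) (n : ℕ) (s : Matrix κ κ ℂ) :
    Matrix ((Fin n → Fin b) × κ) ((Fin n → Fin b) × κ) ℂ :=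
  Matrix.of fun x y => (∏ i, g (x.1 i) (y.1 i)) * s x.2 y.2

lemma tpw_eq (g : Matrix (Fin b) (Fin b) ℂ) (n : ℕ) (s : Matrix κ κ ℂ) :
    tpw g n s = Matrix.kronecker (tp g n) s := rfl

lemma tpw_mul (g h : Matrix (Fin b) (Fin b) ℂ) (n : ℕ) (s t : Matrix κ κ ℂ) :
    tpw (g * h) n (s * t) = tpw g n s * tpw h n t := by
  rw [tpw_eq, tpw_eq, tpw_eq, tp_mul]
  exact Matrix.mul_kronecker_mul _ _ _ _

lemma tpw_one (n : ℕ) : tpw (1 : Matrix (Fin b) (Fin b) ℂ) n (1 : Matrix κ κ ℂ) = 1 := by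
  rw [tpw_eq, tp_one]
  exact Matrix.one_kronecker_one

lemma tpw_pow (g : Matrix (Fin b) (Fin b) ℂ) (n : ℕ) (s : Matrix κ κ ℂ) (k : ℕ) :
    tpw (g ^ k) n (s ^ k) = tpw g n s ^ k := by
  induction k with
  | zero => rw [pow_zero, pow_zero, pow_zero, tpw_one]
  | succ k ih => rw [pow_succ, pow_succ, pow_succ, tpw_mul, ih]

lemma trace_tpw (g : Matrix (Fin b) (Fin b) ℂ) (n : ℕ) (s : Matrix κ κ ℂ) :
    (tpw g n s).trace = g.trace ^ n * s.trace := by
  rw [tpw_eq, ← trace_tp]
  exact Matrix.trace_kronecker _ _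

/-- The roots of the characteristic polynomial, as a function. -/
lemma exists_roots' (s : Matrix κ κ ℂ) :
    ∃ m : Fin (Fintype.card κ) → ℂ, s.charpoly.roots = univ.val.map m := by
  obtain ⟨m, hm⟩ := exists_roots (Matrix.reindex (Fintype.equivFin κ) (Fintype.equivFin κ) s)
  rw [Matrix.charpoly_reindex] at hm
  exact ⟨m, hm⟩

lemma trace_pow' {s : Matrix κ κ ℂ} {m : Fin (Fintype.card κ) → ℂ}
    (hm : s.charpoly.roots = univ.val.map m) (k : ℕ) : (s ^ k).trace = ∑ j, m j ^ k := by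
  have h1 := trace_aeval' s (X ^ k)
  rw [map_pow, aeval_X, hm, Multiset.map_map] at h1
  simp only [Function.comp_apply, eval_pow, eval_X] at h1
  exact h1

lemma trace_pow_tpw {g : Matrix (Fin b) (Fin b) ℂ} {l : Fin b → ℂ}
    (hl : g.charpoly.roots = univ.val.map l) {s : Matrix κ κ ℂ} {m : Fin (Fintype.card κ) → ℂ}
    (hm : s.charpoly.roots = univ.val.map m) (n k : ℕ) :
    (tpw g n s ^ k).trace =
      ∑ y : (Fin n → Fin b) × Fin (Fintype.card κ), ((∏ i, l (y.1 i)) * m y.2) ^ k := by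
  rw [← tpw_pow, trace_tpw, trace_pow' hm]
  have h1 := trace_pow_tp hl n k
  rw [← tp_pow, trace_tp] at h1
  rw [h1, Finset.sum_mul_sum, ← Finset.univ_product_univ, Finset.sum_product]
  refine sum_congr rfl fun x _ => sum_congr rfl fun j _ => ?_
  rw [mul_pow]

/-- The multiplicity of `1`. -/
theorem count_eq' {g : Matrix (Fin b) (Fin b) ℂ} {l : Fin b → ℂ}
    (hl : g.charpoly.roots = univ.val.map l) {s : Matrix κ κ ℂ} {m : Fin (Fintype.card κ) → ℂ}
    (hm : s.charpoly.roots = univ.val.map m) (hm0 : ∀ j, m j ≠ 0) (n : ℕ) :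
    (tpw g n s).charpoly.rootMultiplicity 1 = ∑ j, cnt l n (m j)⁻¹ := by
  classical
  set V : (Fin n → Fin b) × Fin (Fintype.card κ) → ℂ := fun y => (∏ i, l (y.1 i)) * m y.2 with hV
  set S : Finset ℂ := ((tpw g n s).charpoly.roots.toFinset ∪ univ.image V).erase 1 with hS
  set f : ℂ[X] := ∏ z ∈ S, (C (1 - z)⁻¹ * (X - C z)) with hf
  have f1 : f.eval 1 = 1 := by
    rw [hf, eval_prod]
    refine prod_eq_one fun z hz => ?_
    have h1 : z ≠ 1 := ne_of_mem_erase hz
    rw [eval_mul, eval_C, eval_sub, eval_X, eval_C]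
    exact inv_mul_cancel₀ (sub_ne_zero.2 h1.symm)
  have f0 : ∀ z, z ∈ ((tpw g n s).charpoly.roots.toFinset ∪ univ.image V) →
      f.eval z = if z = 1 then 1 else 0 := by
    intro z hz
    split_ifs with h
    · rw [h, f1]
    · rw [hf, eval_prod]
      refine prod_eq_zero (mem_erase.2 ⟨h, hz⟩) ?_
      simp
  have h1 : (aeval (tpw g n s) f).trace = ((tpw g n s).charpoly.rootMultiplicity 1 : ℂ) := by
    rw [trace_aeval']
    have h2 : ((tpw g n s).charpoly.roots.map fun z => f.eval z) =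
        ((tpw g n s).charpoly.roots.map fun z => if z = 1 then 1 else 0) := by
      refine Multiset.map_congr rfl fun z hz => f0 z ?_
      exact mem_union_left _ (Multiset.mem_toFinset.2 hz)
    rw [h2, ← count_roots, Multiset.count_eq_card_filter_eq]
    have h3 : ∀ m : Multiset ℂ, (m.map fun z => if z = 1 then (1 : ℂ) else 0).sum =
        ((Multiset.filter (Eq 1) m).card : ℂ) := by
      intro m
      induction m using Multiset.induction_on with
      | empty => simp
      | cons a m ih =>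
        rw [Multiset.map_cons, Multiset.sum_cons, ih]
        by_cases h : a = 1
        · subst h
          rw [if_pos rfl, Multiset.filter_cons_of_pos _ rfl, Multiset.card_cons]
          push_cast
          ring
        · rw [if_neg h, Multiset.filter_cons_of_neg _ (fun h' => h h'.symm), zero_add]
    exact h3 _
  have h2 : (aeval (tpw g n s) f).trace = ((∑ j, cnt l n (m j)⁻¹ : ℕ) : ℂ) := by
    have h3 : ∀ q : ℂ[X], (aeval (tpw g n s) q).trace = ∑ y, q.eval (V y) := by
      intro q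
      induction q using Polynomial.induction_on' with
      | add p q hp hq =>
        rw [map_add, Matrix.trace_add, hp, hq, ← sum_add_distrib]
        simp only [eval_add]
      | monomial k a =>
        rw [aeval_monomial, ← Algebra.smul_def, Matrix.trace_smul, trace_pow_tpw hl hm, smul_eq_mul,
          mul_sum]
        simp only [eval_monomial, hV]
    rw [h3, ← Finset.univ_product_univ, Finset.sum_product, sum_comm]
    push_cast
    refine sum_congr rfl fun j _ => ?_
    rw [cnt]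
    push_cast
    refine sum_congr rfl fun x _ => ?_
    rw [f0 _ (mem_union_right _ (mem_image_of_mem _ (mem_univ (x, j))))]
    have h4 : V (x, j) = 1 ↔ ∏ i, l (x i) = (m j)⁻¹ := by
      rw [hV]
      exact mul_eq_one_iff_eq_inv₀ (hm0 j)
    simp only [h4]
  rw [h1] at h2
  exact_mod_cast h2

variable {Γ : Type*} [Group Γ]

/-- The vectors of `V^(⊗ n) ⊗ W` which are fixed by `N`, where `V` and `W` are the representations
`ρ` and `σ`. -/
def fixw (ρ : Γ →* Matrix (Fin b) (Fin b) ℂ) (N : Subgroup Γ) (n : ℕ) (σ : Γ →* Matrix κ κ ℂ) :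
    Submodule ℂ ((Fin n → Fin b) × κ → ℂ) where
  carrier := {f | ∀ g ∈ N, tpw (ρ g) n (σ g) *ᵥ f = f}
  add_mem' := fun {v w} hv hw g hg => by rw [Matrix.mulVec_add, hv g hg, hw g hg]
  zero_mem' := fun g _ => Matrix.mulVec_zero _
  smul_mem' := fun c v hv g hg => by rw [Matrix.mulVec_smul, hv g hg]

/-- For all `ε > 0`, all large `n` and all representations `W` the dimension of the space of vectors
of `V^(⊗ n) ⊗ W` which are fixed by `N` is at most `ε` times the dimension of `V^(⊗ n) ⊗ W`. -/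
def Sparse (ρ : Γ →* Matrix (Fin b) (Fin b) ℂ) (N : Subgroup Γ) : Prop :=
  ∀ ε : ℝ, 0 < ε → ∃ n₀ : ℕ, ∀ n ≥ n₀, ∀ (κ : Type) [Fintype κ] [DecidableEq κ]
    (σ : Γ →* Matrix κ κ ℂ),
    (Module.finrank ℂ (fixw ρ N n σ) : ℝ) ≤ ε * ((b : ℝ) ^ n * Fintype.card κ)

variable {ρ : Γ →* Matrix (Fin b) (Fin b) ℂ} {N : Subgroup Γ}

lemma finrank_fixw_le {g : Γ} (hg : g ∈ N) {l : Fin b → ℂ}
    (hl : (ρ g).charpoly.roots = univ.val.map l) (σ : Γ →* Matrix κ κ ℂ) (n : ℕ) {t : ℝ}
    (ht : ∀ z, (cnt l n z : ℝ) ≤ t) :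
    (Module.finrank ℂ (fixw ρ N n σ) : ℝ) ≤ t * Fintype.card κ := by
  obtain ⟨m, hm⟩ := exists_roots' (σ g)
  have hm0 : ∀ j, m j ≠ 0 := by
    intro j h
    have h1 : (σ g).det = ∏ j, m j := by
      rw [Matrix.det_eq_prod_roots_charpoly, hm]
      rfl
    rw [prod_eq_zero (mem_univ j) h] at h1
    have h2 : σ g * σ g⁻¹ = 1 := by rw [← map_mul, mul_inv_cancel, map_one]
    have h3 := congrArg Matrix.det h2
    rw [Matrix.det_mul, h1, zero_mul, Matrix.det_one] at h3
    exact zero_ne_one h3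
  have h1 : fixw ρ N n σ ≤ Module.End.eigenspace (Matrix.toLin' (tpw (ρ g) n (σ g))) 1 := by
    intro v hv
    rw [Module.End.mem_eigenspace_iff]
    rw [Matrix.toLin'_apply, hv g hg, one_smul]
  have h2 := LinearMap.finrank_eigenspace_le (Matrix.toLin' (tpw (ρ g) n (σ g))) 1
  rw [Matrix.charpoly_toLin', count_eq' hl hm hm0] at h2
  have h3 := (Submodule.finrank_mono h1).trans h2
  calc (Module.finrank ℂ (fixw ρ N n σ) : ℝ) ≤ ((∑ j, cnt l n (m j)⁻¹ : ℕ) : ℝ) := by exact_mod_cast h3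
    _ = ∑ j, (cnt l n (m j)⁻¹ : ℝ) := by push_cast; rfl
    _ ≤ ∑ j : Fin (Fintype.card κ), t := sum_le_sum fun j _ => ht _
    _ = t * Fintype.card κ := by
        rw [sum_const, card_univ, Fintype.card_fin, nsmul_eq_mul, mul_comm]

/-- **The dichotomy.** -/
theorem dichotomy' (hb : 0 < b) [N.Normal] (hρ : Irr ρ Set.univ) :
    (Q1 ρ N).Finite ∨ Sparse ρ N := by
  by_cases h : ∃ M, Bdd ρ N M
  · obtain ⟨M, h⟩ := h
    exact Or.inl (finite_of_bdd hb hρ h)
  · right
    push Not at h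
    intro ε hε
    obtain ⟨M, hM⟩ := exists_nat_gt (2 / ε)
    have h' := h M
    rw [Bdd] at h'
    push Not at h'
    obtain ⟨g, hg, l, hl, i, j, h'⟩ := h'
    obtain ⟨n₀, h1⟩ := rare hb (roots_ne hl) i j M h'
    refine ⟨n₀, fun n hn κ _ _ σ => ?_⟩
    have h2 : 2 / ((M : ℝ) + 1) ≤ ε := by
      rw [div_lt_iff₀ hε] at hM
      rw [div_le_iff₀ (by positivity)]
      nlinarith
    have h3 : ∀ z, (cnt l n z : ℝ) ≤ ε * (b : ℝ) ^ n := fun z =>
      (h1 n hn z).trans (mul_le_mul_of_nonneg_right h2 (by positivity))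
    have h4 := finrank_fixw_le hg hl σ n h3
    rw [mul_assoc] at h4
    exact h4

end Run7.h199.ZO
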